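import Mathlib

/-!
# Circuits of NOT, AND, OR and MOD_m gates, their automorphisms, and block symmetry
-/

set_option autoImplicit false

namespace Pool.Agent.Helper18

open Finset

/-- A circuit with `n` input variables and `s` gates, of arbitrary depth. `kind g` is the type of
the gate `g`: `0` NOT, `1` AND, `2` OR, `3` MOD_m, `4` MAJORITY. The gate `g` is fed by the
variables in `vars g` and by the gates in `args g`. The fan-in is not bounded, except that
MAJORITY gates have fan-in at most `t`. -/
structure Circuit (n s t : ℕ) where
  /-- the type of each gate -/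
  kind : Fin s → Fin 5
  /-- the variables feeding each gate -/
  vars : Fin s → Finset (Fin n)
  /-- the gates feeding each gate -/
  args : Fin s → Finset (Fin s)
  /-- levels witnessing that there is no cycle -/
  level : Fin s → ℕ
  level_lt : ∀ g, ∀ h ∈ args g, level h < level g
  not_unary : ∀ g, kind g = 0 → (vars g).card + (args g).card = 1
  majority_small : ∀ g, kind g = 4 → (vars g).card + (args g).card ≤ t
  /-- the output gate -/
  out : Fin s

namespace Circuit

variable {n s t : ℕ}

/-- The number of true inputs of the gate `g`, on the input `x`, when the gates have values `v`. -/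
def trueInputs (C : Circuit n s t) (x : Fin n → Bool) (v : Fin s → Bool) (g : Fin s) : ℕ :=
  ((C.vars g).filter fun i => x i = true).card + ((C.args g).filter fun h => v h = true).card

/-- `v` gives the correct values of all gates on the input `x`. -/
def IsRun (m : ℕ) (C : Circuit n s t) (x : Fin n → Bool) (v : Fin s → Bool) : Prop :=
  ∀ g, v g = true ↔
    (C.kind g = 0 ∧ C.trueInputs x v g = 0) ∨
    (C.kind g = 1 ∧ C.trueInputs x v g = (C.vars g).card + (C.args g).card) ∨
    (C.kind g = 2 ∧ 0 < C.trueInputs x v g) ∨
    (C.kind g = 3 ∧ C.trueInputs x v g % m ≠ 0) ∨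
    (C.kind g = 4 ∧ (C.vars g).card + (C.args g).card ≤ 2 * C.trueInputs x v g)

/-- The circuit, with its gates of type `3` read as MOD_m gates, computes the function `f`. -/
def Computes (m : ℕ) (C : Circuit n s t) (f : (Fin n → Bool) → Prop) : Prop :=
  ∀ x, ∃ v, IsRun m C x v ∧ (v C.out = true ↔ f x)

/-- The permutations `ρ` of the variables and `τ` of the gates form an automorphism. -/
def IsAut (C : Circuit n s t) (ρ : Equiv.Perm (Fin n)) (τ : Equiv.Perm (Fin s)) : Prop :=
  (∀ g, C.kind (τ g) = C.kind g) ∧
  (∀ g i, ρ i ∈ C.vars (τ g) ↔ i ∈ C.vars g) ∧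
  (∀ g h, τ h ∈ C.args (τ g) ↔ h ∈ C.args g) ∧
  τ C.out = C.out

/-- The variables `i` with `blk i = some j` form the `j`-th block; the other variables are those
with `blk i = none`, and `z` assigns values to them. The circuit is block symmetric if every
permutation `π` of the blocks extends to an automorphism of the circuit that maps every block `j`
into the block `π j` and maps every variable outside the blocks to a variable outside the blocks
having the same value under `z`. -/
def BlockSymmetric {b : ℕ} (C : Circuit n s t) (blk : Fin n → Option (Fin b)) (z : Fin n → Bool) :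
    Prop :=
  ∀ π : Equiv.Perm (Fin b), ∃ ρ τ, C.IsAut ρ τ ∧
    ∀ i, (blk i = none → blk (ρ i) = none ∧ z (ρ i) = z i) ∧
      (∀ j, blk i = some j → blk (ρ i) = some (π j))

end Circuit

end Pool.Agent.Helper18
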