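import Mathlib

/-!
# A period with divisible binomial coefficients
-/

set_option autoImplicit false

namespace Pool.Agent.Helper18

open Finset

/-- The period. -/
def period (m k : ℕ) : ℕ := m * ∏ p ∈ m.primeFactors, p ^ Nat.log p k

theorem period_le {m k : ℕ} (hk : 1 ≤ k) : period m k ≤ m * k ^ m.primeFactors.card := by
  apply Nat.mul_le_mul_left
  apply Finset.prod_le_pow_card
  intro p _
  exact Nat.pow_log_le_self p (by omega)

theorem lt_period {m k : ℕ} (hm : 2 ≤ m) : k + 1 ≤ period m k := by
  obtain ⟨p, hp, hpm⟩ := Nat.exists_prime_and_dvd (n := m) (by omega)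
  have hmem : p ∈ m.primeFactors := Nat.mem_primeFactors.mpr ⟨hp, hpm, by omega⟩
  have h1 : p ^ Nat.log p k ≤ ∏ q ∈ m.primeFactors, q ^ Nat.log q k := by
    apply Nat.le_of_dvd
    · exact Finset.prod_pos fun q hq => pow_pos (Nat.prime_of_mem_primeFactors hq).pos _
    · exact Finset.dvd_prod_of_mem _ hmem
  have h2 : k < p ^ (Nat.log p k + 1) := Nat.lt_pow_succ_log_self hp.one_lt k
  have h3 : p ≤ m := Nat.le_of_dvd (by omega) hpm
  calc k + 1 ≤ p ^ (Nat.log p k + 1) := h2
    _ = p * p ^ Nat.log p k := by rw [pow_succ, mul_comm]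
    _ ≤ m * ∏ q ∈ m.primeFactors, q ^ Nat.log q k := Nat.mul_le_mul h3 h1
    _ = period m k := rfl

theorem pow_lt_period {m k : ℕ} (hm : 2 ≤ m) : k ^ m.primeFactors.card < period m k := by
  obtain ⟨p, hp, hpm⟩ := Nat.exists_prime_and_dvd (n := m) (by omega)
  have hmem : p ∈ m.primeFactors := Nat.mem_primeFactors.mpr ⟨hp, hpm, by omega⟩
  have h1 : (k + 1) ^ m.primeFactors.card ≤ ∏ q ∈ m.primeFactors, q ^ (Nat.log q k + 1) := by
    rw [← Finset.prod_const]
    apply Finset.prod_le_prod'
    intro q hq
    exact Nat.lt_pow_succ_log_self (Nat.prime_of_mem_primeFactors hq).one_lt k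
  have h2 : ∏ q ∈ m.primeFactors, q ^ (Nat.log q k + 1) =
      (∏ q ∈ m.primeFactors, q) * ∏ q ∈ m.primeFactors, q ^ Nat.log q k := by
    rw [← Finset.prod_mul_distrib]
    apply Finset.prod_congr rfl
    intro q _
    rw [pow_succ, mul_comm]
  have h3 : ∏ q ∈ m.primeFactors, q ≤ m := Nat.le_of_dvd (by omega) (Nat.prod_primeFactors_dvd m)
  calc k ^ m.primeFactors.card < (k + 1) ^ m.primeFactors.card := by
        apply Nat.pow_lt_pow_left (Nat.lt_succ_self k)
        exact (Finset.card_pos.mpr ⟨p, hmem⟩).ne'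
    _ ≤ (∏ q ∈ m.primeFactors, q) * ∏ q ∈ m.primeFactors, q ^ Nat.log q k := by rw [← h2]; exact h1
    _ ≤ m * ∏ q ∈ m.primeFactors, q ^ Nat.log q k := Nat.mul_le_mul_right _ h3

theorem dvd_choose_period {m k : ℕ} (hm : 2 ≤ m) {j : ℕ} (hj : 1 ≤ j) (hjk : j < k) :
    m ∣ (period m k).choose j := by
  have hM : 0 < period m k := lt_of_lt_of_le (Nat.succ_pos k) (lt_period hm)
  have hjM : j ≤ period m k := by have := lt_period (k := k) hm; omega
  have hc : 0 < (period m k).choose j := Nat.choose_pos hjM
  rw [← Nat.factorization_prime_le_iff_dvd (by omega) hc.ne']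
  intro p hp
  by_cases hpm : p ∈ m.primeFactors
  · have heq : period m k * (period m k - 1).choose (j - 1) = (period m k).choose j * j := by
      obtain ⟨M', hM'⟩ : ∃ M', period m k = M' + 1 := ⟨period m k - 1, by omega⟩
      obtain ⟨j', rfl⟩ : ∃ j', j = j' + 1 := ⟨j - 1, by omega⟩
      rw [hM']
      simpa using Nat.add_one_mul_choose_eq M' j'
    have h1 : p ^ (m.factorization p + Nat.log p k) ∣ (period m k).choose j * j := by
      rw [← heq, pow_add]
      apply Dvd.dvd.mul_right
      apply Nat.mul_dvd_mul (Nat.ordProj_dvd m p)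
      exact Finset.dvd_prod_of_mem (fun q => q ^ Nat.log q k) hpm
    have hne : (period m k).choose j * j ≠ 0 := Nat.mul_ne_zero hc.ne' (by omega)
    have h2 : m.factorization p + Nat.log p k ≤ ((period m k).choose j * j).factorization p :=
      (hp.pow_dvd_iff_le_factorization hne).mp h1
    rw [Nat.factorization_mul hc.ne' (by omega)] at h2
    have h3 : j.factorization p ≤ Nat.log p k := by
      apply Nat.le_log_of_pow_le hp.one_lt
      calc p ^ j.factorization p ≤ j := Nat.le_of_dvd (by omega) (Nat.ordProj_dvd j p)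
        _ ≤ k := by omega
    have h4 : ((period m k).choose j).factorization p + j.factorization p =
        (((period m k).choose j).factorization + j.factorization) p := rfl
    omega
  · have : m.factorization p = 0 := by
      rw [← Finsupp.notMem_support_iff]
      simpa using hpm
    omega

end Pool.Agent.Helper18
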