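import Pool.Agent.Helper18.SymCircuit
import Pool.Agent.Helper18.Period

/-!
# Block symmetric circuits for majority
-/

set_option autoImplicit false

namespace Pool.Agent.Helper18

open Finset Circuit

theorem card_asg {n b c : ℕ} (blk : Fin n → Option (Fin b))
    (hblk : ∀ j, (Finset.univ.filter fun i => blk i = some j).card = c) (z : Fin n → Bool)
    (u : Fin b → Bool) :
    (Finset.univ.filter fun i => asg blk z u i = true).card =
      (Finset.univ.filter fun i => blk i = none ∧ z i = true).card +
        c * (Finset.univ.filter fun j => u j = true).card := by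
  classical
  rw [Finset.card_eq_sum_card_fiberwise (f := blk) (t := Finset.univ)
    (fun i _ => Finset.mem_univ _), Fintype.sum_option]
  have hnone : ∀ i, blk i = none → asg blk z u i = z i := by
    intro i hi
    simp [asg, hi]
  have hsome : ∀ i j, blk i = some j → asg blk z u i = u j := by
    intro i j hi
    simp [asg, hi]
  congr 1
  · congr 1
    ext i
    simp only [Finset.mem_filter, Finset.mem_univ, true_and]
    constructor
    · rintro ⟨h1, h2⟩
      rw [hnone i h2] at h1
      exact ⟨h2, h1⟩
    · rintro ⟨h1, h2⟩
      rw [hnone i h1]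
      exact ⟨h2, h1⟩
  · have h1 : ∀ j, ((Finset.univ.filter fun i => asg blk z u i = true).filter
        fun i => blk i = some j).card = if u j = true then c else 0 := by
      intro j
      by_cases hu : u j = true
      · rw [if_pos hu, ← hblk j]
        congr 1
        ext i
        simp only [Finset.mem_filter, Finset.mem_univ, true_and]
        constructor
        · rintro ⟨-, h2⟩; exact h2
        · intro h2
          rw [hsome i j h2]
          exact ⟨hu, h2⟩
      · rw [if_neg hu, Finset.card_eq_zero, Finset.filter_eq_empty_iff]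
        intro i hi h2
        rw [Finset.mem_filter] at hi
        apply hu
        rw [← hsome i j h2]
        exact hi.2
    rw [Finset.sum_congr rfl (fun j _ => h1 j), ← Finset.sum_filter, Finset.sum_const,
      smul_eq_mul, mul_comm]

theorem card_fin_interval {b p q : ℕ} (hq : q ≤ b) :
    (Finset.univ.filter fun i : Fin b => p ≤ (i : ℕ) ∧ (i : ℕ) < q).card = q - p := by
  have h1 : (Finset.univ.filter fun i : Fin b => p ≤ (i : ℕ) ∧ (i : ℕ) < q).map
      Fin.valEmbedding = Finset.Ico p q := by
    ext x
    simp only [Finset.mem_map, Finset.mem_filter, Finset.mem_univ, true_and,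
      Fin.valEmbedding_apply, Finset.mem_Ico]
    constructor
    · rintro ⟨i, hi, rfl⟩; exact hi
    · intro hx
      exact ⟨⟨x, by omega⟩, hx, rfl⟩
  rw [← Finset.card_map Fin.valEmbedding, h1, Nat.card_Ico]

theorem majority_lower_bound (m b k n c s t : ℕ) (hm : 2 ≤ m) (hk : 2 ≤ k)
    (ht : t ≤ k ^ m.primeFactors.card)
    (hb : m * k ^ m.primeFactors.card + 8 * k * (k + 1) ≤ b)
    (blk : Fin n → Option (Fin b))
    (hblk : ∀ j, (Finset.univ.filter fun i => blk i = some j).card = c)
    (z : Fin n → Bool)
    (hlo : 2 * ((Finset.univ.filter fun i => blk i = none ∧ z i = true).card + c * (2 * k)) < n)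
    (hhi : n ≤ 2 * ((Finset.univ.filter fun i => blk i = none ∧ z i = true).card +
      c * (b - 2 * k)))
    (C : Circuit n s t) (hsym : C.BlockSymmetric blk z)
    (hmaj : C.Computes m fun x => n ≤ 2 * (Finset.univ.filter fun i => x i = true).card) :
    b.choose k ≤ s := by
  classical
  by_contra hcon
  push Not at hcon
  choose val hval hout using hmaj
  set M := period m k with hM
  have h1 : M ≤ m * k ^ m.primeFactors.card := period_le (by omega)
  have h2 : k + 1 ≤ M := lt_period hm
  have h3 : 8 * k * (k + 1) = 8 * (k * k) + 8 * k := by ring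
  have h4 : 2 * k ≤ k * k := Nat.mul_le_mul_right k hk
  have h5 : M + 24 * k ≤ b := by omega
  obtain ⟨Z, hZ⟩ : ∃ Z, Z = (Finset.univ.filter fun i => blk i = none ∧ z i = true).card :=
    ⟨_, rfl⟩
  rw [← hZ] at hlo hhi
  have hex : ∃ w, n ≤ 2 * (Z + c * w) := ⟨_, hhi⟩
  obtain ⟨w₀, hw₀⟩ : ∃ w₀, w₀ = Nat.find hex := ⟨_, rfl⟩
  have hmono : ∀ w w', w ≤ w' → n ≤ 2 * (Z + c * w) → n ≤ 2 * (Z + c * w') := by
    intro w w' hww hw
    have : c * w ≤ c * w' := Nat.mul_le_mul_left _ hww
    omega
  have hw₀1 : n ≤ 2 * (Z + c * w₀) := by rw [hw₀]; exact Nat.find_spec hex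
  have hw₀2 : ∀ w, w < w₀ → 2 * (Z + c * w) < n := by
    intro w hw
    rw [hw₀] at hw
    have := Nat.find_min hex hw
    omega
  have hw₀3 : 2 * k < w₀ := by
    by_contra hcon'
    push Not at hcon'
    have := hmono _ _ hcon' hw₀1
    omega
  have hw₀4 : w₀ ≤ b - 2 * k := by rw [hw₀]; exact Nat.find_min' hex hhi
  obtain ⟨w, hw⟩ : ∃ w, w = max (2 * k) (w₀ - M) := ⟨_, rfl⟩
  have hw1 : 2 * k ≤ w := by omega
  have hw2 : M + w + 2 * k ≤ b := by omega
  have hw3 : 2 * (Z + c * w) < n := hw₀2 w (by omega)
  have hw4 : n ≤ 2 * (Z + c * (M + w)) := hmono w₀ _ (by omega) hw₀1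
  let B : Finset (Fin b) := Finset.univ.filter fun i => 0 ≤ (i : ℕ) ∧ (i : ℕ) < M
  have hBcard : B.card = M := by
    have := card_fin_interval (b := b) (p := 0) (q := M) (by omega)
    simpa [B] using this
  let x : Fin b → Bool := fun i => decide (M ≤ (i : ℕ) ∧ (i : ℕ) < M + w)
  let y : Fin b → Bool := fun i => decide (0 ≤ (i : ℕ) ∧ (i : ℕ) < M + w)
  have hxc : (Finset.univ.filter fun j => x j = true).card = w := by
    have := card_fin_interval (b := b) (p := M) (q := M + w) (by omega)
    simpa [x] using this
  have hyc : (Finset.univ.filter fun j => y j = true).card = M + w := by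
    have := card_fin_interval (b := b) (p := 0) (q := M + w) (by omega)
    simpa [y] using this
  have hX := card_asg blk hblk z x
  have hY := card_asg blk hblk z y
  rw [← hZ, hxc] at hX
  rw [← hZ, hyc] at hY
  have heq := output_eq (C := C) (blk := blk) (m := m) hk (by omega) hcon hsym val hval B
    (by rw [hBcard]; exact h2)
    (by rw [hBcard]; exact fun j hj hjk => dvd_choose_period hm hj hjk)
    (by rw [hBcard]; exact lt_of_le_of_lt ht (pow_lt_period hm)) x y
    (by
      intro i hi
      simp only [B, Finset.mem_filter, Finset.mem_univ, true_and] at hi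
      simp only [x, decide_eq_false_iff_not]
      omega)
    (by
      intro i hi
      simp only [B, Finset.mem_filter, Finset.mem_univ, true_and] at hi
      simp only [y, decide_eq_true_eq]
      omega)
    (by
      intro i hi
      simp only [B, Finset.mem_filter, Finset.mem_univ, true_and] at hi
      simp only [x, y, decide_eq_decide]
      omega)
    (by
      have h6 : (Finset.univ.filter fun i => i ∉ B ∧ x i = false) =
          Finset.univ.filter fun i : Fin b => M + w ≤ (i : ℕ) ∧ (i : ℕ) < b := by
        apply Finset.filter_congr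
        intro i _
        simp only [B, x, Finset.mem_filter, Finset.mem_univ, true_and, decide_eq_false_iff_not]
        omega
      rw [h6, card_fin_interval le_rfl]
      omega)
    (by
      have h6 : (Finset.univ.filter fun i => i ∉ B ∧ y i = true) =
          Finset.univ.filter fun i : Fin b => M ≤ (i : ℕ) ∧ (i : ℕ) < M + w := by
        apply Finset.filter_congr
        intro i _
        simp only [B, y, Finset.mem_filter, Finset.mem_univ, true_and, decide_eq_true_eq]
        omega
      rw [h6, card_fin_interval (by omega)]
      omega)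
  have h7 := hout (asg blk z x)
  have h8 := hout (asg blk z y)
  rw [heq, h8] at h7
  simp only [hX, hY] at h7
  omega

end Pool.Agent.Helper18
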