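import Pool.Agent.Helper18.Support2

/-!
# Moving small supports by even permutations: the counting step
-/

set_option autoImplicit false

namespace Pool.Agent.Helper18

open Equiv Equiv.Perm Finset

variable {β : Type*} [DecidableEq β] [Fintype β]

theorem exists_even_move {B S S' : Finset β} (hS : S ⊆ B) (hS' : S' ⊆ B)
    (hc : S.card = S'.card) (h2 : S.card + 2 ≤ B.card) :
    ∃ π : Perm β, sign π = 1 ∧ (∀ x, x ∉ B → π x = x) ∧ S.image π = S' := by
  classical
  let p : β → Prop := fun x => x ∈ B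
  let S₁ : Finset {x // p x} := S.subtype p
  let S₁' : Finset {x // p x} := S'.subtype p
  have hS₁ : S₁.card = S.card := by
    rw [Finset.card_subtype]
    congr 1
    exact Finset.filter_true_of_mem fun x hx => hS hx
  have hS₁' : S₁'.card = S'.card := by
    rw [Finset.card_subtype]
    congr 1
    exact Finset.filter_true_of_mem fun x hx => hS' hx
  obtain ⟨g, hg⟩ := exists_perm_image (P := S₁) (R := S₁') (by rw [hS₁, hS₁', hc])
  -- a permutation of the right sign
  obtain ⟨g', hg', hsg⟩ : ∃ g' : Perm {x // p x}, S₁.image g' = S₁' ∧ sign g' = 1 := by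
    rcases Int.units_eq_one_or (sign g) with h | h
    · exact ⟨g, hg, h⟩
    · have hcard : 2 ≤ (Finset.univ \ S₁).card := by
        have h3 : (Finset.univ \ S₁).card + S₁.card = (Finset.univ : Finset {x // p x}).card :=
          Finset.card_sdiff_add_card_eq_card (Finset.subset_univ _)
        have h4 : (Finset.univ : Finset {x // p x}).card = B.card := by
          rw [Finset.card_univ]; exact Fintype.card_coe B
        omega
      obtain ⟨q, hq, r, hr, hqr⟩ := Finset.one_lt_card.mp hcard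
      refine ⟨g * swap q r, ?_, ?_⟩
      · rw [← hg]
        apply Finset.image_congr
        intro x hx
        have hxq : x ≠ q := by rintro rfl; exact (Finset.mem_sdiff.mp hq).2 hx
        have hxr : x ≠ r := by rintro rfl; exact (Finset.mem_sdiff.mp hr).2 hx
        simp [swap_apply_of_ne_of_ne hxq hxr]
      · rw [map_mul, h, sign_swap hqr]; simp
  refine ⟨ofSubtype g', by rw [sign_ofSubtype, hsg], fun x hx => ofSubtype_apply_of_not_mem _ hx, ?_⟩
  apply Finset.eq_of_subset_of_card_le
  · intro y hy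
    obtain ⟨x, hx, rfl⟩ := Finset.mem_image.mp hy
    rw [ofSubtype_apply_of_mem g' (hS hx)]
    have : g' ⟨x, hS hx⟩ ∈ S₁' := by
      rw [← hg']
      exact Finset.mem_image_of_mem _ (Finset.mem_subtype.mpr hx)
    exact Finset.mem_subtype.mp this
  · rw [Finset.card_image_of_injective _ (Equiv.injective _), hc]

/-- The abstract data of a circuit acted on by permutations of blocks: `ch` gives the children of
a node, `F` the value of a node on an assignment of the blocks, `Δ` the support of a node. -/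
structure Sys (β N : Type*) [DecidableEq β] [Fintype β] [DecidableEq N] where
  ch : N → Finset N
  F : N → (β → Bool) → Bool
  Δ : N → Finset β
  Act : Perm β → Perm N → Prop
  act_F : ∀ π τ, Act π τ → ∀ c u, F (τ c) u = F c (u ∘ π)
  act_Δ : ∀ π τ, Act π τ → ∀ c, Δ (τ c) = (Δ c).image π
  act_ch : ∀ π τ, Act π τ → ∀ c g, τ c ∈ ch (τ g) ↔ c ∈ ch g

variable {N : Type*} [DecidableEq N]

namespace Sys

variable (Y : Sys β N)

/-- The node `g` is fixed by lifts of all even permutations fixing its support. -/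
def Supported (g : N) : Prop :=
  ∀ π : Perm β, sign π = 1 → (∀ x ∈ Y.Δ g, π x = x) → ∃ τ, Y.Act π τ ∧ τ g = g

/-- The children of `g` of value true whose support meets `B`. -/
def bad (g : N) (B : Finset β) (u : β → Bool) : Finset N :=
  (Y.ch g).filter fun c => Y.F c u = true ∧ ¬ Disjoint (Y.Δ c) B

omit [Fintype β] in
theorem image_inter_of_maps {π : Perm β} {B D : Finset β} (hπ : ∀ x, x ∉ B → π x = x) :
    D.image π ∩ B = (D ∩ B).image π := by
  have hB : ∀ x, x ∈ B → π x ∈ B := by
    intro x hx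
    by_contra h
    have h1 := hπ _ h
    have h2 := π.injective h1
    rw [h2] at h
    exact h hx
  ext y
  simp only [Finset.mem_inter, Finset.mem_image]
  constructor
  · rintro ⟨⟨x, hx, rfl⟩, hy⟩
    refine ⟨x, ⟨hx, ?_⟩, rfl⟩
    by_contra h
    rw [hπ x h] at hy
    exact h hy
  · rintro ⟨x, ⟨hx, hxB⟩, rfl⟩
    exact ⟨⟨x, hx, rfl⟩, hB x hxB⟩

omit [Fintype β] in
theorem comp_eq_of_const {π : Perm β} {B : Finset β} (hπ : ∀ x, x ∉ B → π x = x)
    {u : β → Bool} {a : Bool} (hu : ∀ x ∈ B, u x = a) : u ∘ π = u := by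
  have hB : ∀ x, x ∈ B → π x ∈ B := by
    intro x hx
    by_contra h
    have h1 := hπ _ h
    have h2 := π.injective h1
    rw [h2] at h
    exact h hx
  ext x
  by_cases hx : x ∈ B
  · simp [hu x hx, hu _ (hB x hx)]
  · simp [hπ x hx]

theorem dvd_card_bad {g : N} (hg : Y.Supported g) {B : Finset β} (hgB : Disjoint (Y.Δ g) B)
    {u : β → Bool} {a : Bool} (hu : ∀ x ∈ B, u x = a) {k m : ℕ} (hk : ∀ c, (Y.Δ c).card < k)
    (hB : k + 1 ≤ B.card) (hm : ∀ j, 1 ≤ j → j < k → m ∣ B.card.choose j) :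
    m ∣ (Y.bad g B u).card := by
  classical
  let f : N → Finset β := fun c => Y.Δ c ∩ B
  let T : Finset (Finset β) := (Finset.powerset B).filter fun S => 1 ≤ S.card ∧ S.card < k
  have hmaps : ∀ c ∈ Y.bad g B u, f c ∈ T := by
    intro c hc
    rw [bad, Finset.mem_filter] at hc
    simp only [T, f, Finset.mem_filter, Finset.mem_powerset]
    refine ⟨Finset.inter_subset_right, ?_, ?_⟩
    · rw [Finset.one_le_card]
      rw [Finset.not_disjoint_iff_nonempty_inter] at hc
      exact hc.2.2
    · exact lt_of_le_of_lt (Finset.card_le_card Finset.inter_subset_left) (hk c)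
  rw [Finset.card_eq_sum_card_fiberwise hmaps]
  -- group the fibres by the size of the trace
  have hmaps2 : ∀ S ∈ T, S.card ∈ Finset.Ico 1 k := by
    intro S hS
    simp only [T, Finset.mem_filter] at hS
    exact Finset.mem_Ico.mpr hS.2
  rw [← Finset.sum_fiberwise_of_maps_to hmaps2]
  apply Finset.dvd_sum
  intro j hj
  rw [Finset.mem_Ico] at hj
  have hfib : T.filter (fun S => S.card = j) = Finset.powersetCard j B := by
    ext S
    simp only [T, Finset.mem_filter, Finset.mem_powerset, Finset.mem_powersetCard]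
    constructor
    · rintro ⟨⟨h1, -⟩, h2⟩; exact ⟨h1, h2⟩
    · rintro ⟨h1, h2⟩; exact ⟨⟨h1, by omega, by omega⟩, h2⟩
  rw [hfib]
  -- all fibres over sets of size `j` have the same size
  have hconst : ∀ S ∈ Finset.powersetCard j B, ∀ S' ∈ Finset.powersetCard j B,
      ((Y.bad g B u).filter fun c => f c = S).card ≤
        ((Y.bad g B u).filter fun c => f c = S').card := by
    intro S hS S' hS'
    rw [Finset.mem_powersetCard] at hS hS'
    obtain ⟨π, hπ1, hπ2, hπ3⟩ := exists_even_move hS.1 hS'.1 (hS.2.trans hS'.2.symm) (by omega)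
    obtain ⟨τ, hτ, hτg⟩ := hg π hπ1 (fun x hx => hπ2 x (Finset.disjoint_left.mp hgB hx))
    apply Finset.card_le_card_of_injOn τ
    · intro c hc
      rw [Finset.mem_coe, Finset.mem_filter, bad, Finset.mem_filter] at hc
      rw [Finset.mem_coe, Finset.mem_filter, bad, Finset.mem_filter]
      obtain ⟨⟨h1, h2, h3⟩, h4⟩ := hc
      have h5 : Y.Δ (τ c) ∩ B = S' := by
        have h4' : Y.Δ c ∩ B = S := h4
        rw [Y.act_Δ π τ hτ, image_inter_of_maps hπ2, h4', hπ3]
      refine ⟨⟨?_, ?_, ?_⟩, h5⟩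
      · have := (Y.act_ch π τ hτ c g).mpr h1
        rwa [hτg] at this
      · rw [Y.act_F π τ hτ, comp_eq_of_const hπ2 hu]; exact h2
      · rw [Finset.not_disjoint_iff_nonempty_inter, h5, ← Finset.card_pos]
        omega
    · exact (Equiv.injective τ).injOn
  rcases (Finset.powersetCard j B).eq_empty_or_nonempty with he | ⟨S₀, hS₀⟩
  · rw [he]; simp
  · have : ∀ S ∈ Finset.powersetCard j B, ((Y.bad g B u).filter fun c => f c = S).card =
        ((Y.bad g B u).filter fun c => f c = S₀).card := fun S hS =>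
      le_antisymm (hconst S hS S₀ hS₀) (hconst S₀ hS₀ S hS)
    rw [Finset.sum_congr rfl this, Finset.sum_const, Finset.card_powersetCard, smul_eq_mul]
    exact Dvd.dvd.mul_right (hm j hj.1 hj.2) _

theorem le_choose_of_pos {n j : ℕ} (h1 : 1 ≤ j) (h2 : j + 1 ≤ n) : n ≤ n.choose j := by
  by_cases h : 2 * j ≤ n
  · calc n = n.choose 1 := (Nat.choose_one_right n).symm
      _ ≤ n.choose j := choose_mono_half h1 h
  · calc n = n.choose 1 := (Nat.choose_one_right n).symm
      _ ≤ n.choose (n - j) := choose_mono_half (by omega) (by omega)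
      _ = n.choose j := Nat.choose_symm (by omega)

theorem card_le_of_not_disjoint {g : N} (hg : Y.Supported g) {B : Finset β}
    (hgB : Disjoint (Y.Δ g) B) {k : ℕ} (hk : ∀ c, (Y.Δ c).card < k) (hB : k + 1 ≤ B.card)
    {c : N} (hc : c ∈ Y.ch g) (hcB : ¬ Disjoint (Y.Δ c) B) : B.card ≤ (Y.ch g).card := by
  classical
  have hj1 : 1 ≤ (Y.Δ c ∩ B).card := by
    rw [Finset.one_le_card]
    rwa [Finset.not_disjoint_iff_nonempty_inter] at hcB
  have hj2 : (Y.Δ c ∩ B).card < k :=
    lt_of_le_of_lt (Finset.card_le_card Finset.inter_subset_left) (hk c)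
  have hsub : Finset.powersetCard (Y.Δ c ∩ B).card B ⊆ (Y.ch g).image fun c' => Y.Δ c' ∩ B := by
    intro S' hS'
    rw [Finset.mem_powersetCard] at hS'
    obtain ⟨π, hπ1, hπ2, hπ3⟩ := exists_even_move (B := B) (S := Y.Δ c ∩ B)
      Finset.inter_subset_right hS'.1 hS'.2.symm (by omega)
    obtain ⟨τ, hτ, hτg⟩ := hg π hπ1 (fun x hx => hπ2 x (Finset.disjoint_left.mp hgB hx))
    refine Finset.mem_image.mpr ⟨τ c, ?_, ?_⟩
    · have := (Y.act_ch π τ hτ c g).mpr hc
      rwa [hτg] at this
    · rw [Y.act_Δ π τ hτ, image_inter_of_maps hπ2, hπ3]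
  have h1 := (Finset.card_le_card hsub).trans Finset.card_image_le
  rw [Finset.card_powersetCard] at h1
  exact (le_choose_of_pos hj1 (by omega)).trans h1

theorem exists_child {g : N} (hg : Y.Supported g) {B : Finset β} (hgB : Disjoint (Y.Δ g) B)
    {u : β → Bool} {a : Bool} (hu : ∀ x ∈ B, u x = a) {k : ℕ} (hk : ∀ c, (Y.Δ c).card < k)
    (hB : 2 ≤ B.card) (hZ : 2 * k ≤ (Finset.univ.filter fun x => x ∉ B ∧ u x = a).card)
    {c : N} (hc : c ∈ Y.ch g) :
    ∃ c' ∈ Y.ch g, Disjoint (Y.Δ c') B ∧ Y.F c' u = Y.F c u := by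
  classical
  let Z : Finset β := Finset.univ.filter fun x => u x = a ∧ x ∉ Y.Δ g
  have hBZ : B ⊆ Z := by
    intro x hx
    simp only [Z, Finset.mem_filter, Finset.mem_univ, true_and]
    exact ⟨hu x hx, fun h => Finset.disjoint_left.mp hgB h hx⟩
  have hZB : k ≤ (Z \ B).card := by
    have h1 : (Finset.univ.filter fun x => x ∉ B ∧ u x = a) ⊆ (Z \ B) ∪ Y.Δ g := by
      intro x hx
      simp only [Finset.mem_filter, Finset.mem_univ, true_and] at hx
      by_cases h : x ∈ Y.Δ g
      · exact Finset.mem_union_right _ h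
      · apply Finset.mem_union_left
        simp only [Z, Finset.mem_sdiff, Finset.mem_filter, Finset.mem_univ, true_and]
        exact ⟨⟨hx.2, h⟩, hx.1⟩
    have h2 := (Finset.card_le_card h1).trans (Finset.card_union_le _ _)
    have h3 := hk g
    omega
  obtain ⟨S', hS'1, hS'2⟩ := Finset.exists_subset_card_eq (s := Z \ B) (n := (Y.Δ c ∩ Z).card)
    ((Finset.card_le_card Finset.inter_subset_left).trans ((hk c).le.trans hZB))
  have hS'Z : S' ⊆ Z := hS'1.trans Finset.sdiff_subset
  obtain ⟨π, hπ1, hπ2, hπ3⟩ := exists_even_move (B := Z) (S := Y.Δ c ∩ Z)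
    Finset.inter_subset_right hS'Z hS'2.symm (by
      have h1 : (Y.Δ c ∩ Z).card ≤ (Z \ B).card := by
        rw [← hS'2]; exact Finset.card_le_card hS'1
      have h2 : (Z \ B).card + B.card = Z.card := Finset.card_sdiff_add_card_eq_card hBZ
      omega)
  have hZu : ∀ x ∈ Z, u x = a := by
    intro x hx
    simp only [Z, Finset.mem_filter, Finset.mem_univ, true_and] at hx
    exact hx.1
  obtain ⟨τ, hτ, hτg⟩ := hg π hπ1 (fun x hx => hπ2 x (by
    simp only [Z, Finset.mem_filter, Finset.mem_univ, true_and, not_and, not_not]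
    intro _; exact hx))
  refine ⟨τ c, ?_, ?_, ?_⟩
  · have := (Y.act_ch π τ hτ c g).mpr hc
    rwa [hτg] at this
  · rw [Finset.disjoint_left]
    intro x hx hxB
    have h1 : x ∈ Y.Δ (τ c) ∩ Z := Finset.mem_inter.mpr ⟨hx, hBZ hxB⟩
    rw [Y.act_Δ π τ hτ, image_inter_of_maps hπ2, hπ3] at h1
    exact (Finset.mem_sdiff.mp (hS'1 h1)).2 hxB
  · rw [Y.act_F π τ hτ, comp_eq_of_const hπ2 hZu]

/-- Comparison of the children values on two assignments. -/
theorem compare {g : N} (hg : Y.Supported g) {B : Finset β} (hgB : Disjoint (Y.Δ g) B)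
    {x y : β → Bool} (hx : ∀ i ∈ B, x i = false) (hy : ∀ i ∈ B, y i = true)
    {k m : ℕ} (hk : ∀ c, (Y.Δ c).card < k)
    (hB : k + 1 ≤ B.card) (hk2 : 1 ≤ k) (hm : ∀ j, 1 ≤ j → j < k → m ∣ B.card.choose j)
    (hZx : 2 * k ≤ (Finset.univ.filter fun i => i ∉ B ∧ x i = false).card)
    (hZy : 2 * k ≤ (Finset.univ.filter fun i => i ∉ B ∧ y i = true).card)
    (hind : ∀ c ∈ Y.ch g, Disjoint (Y.Δ c) B → Y.F c x = Y.F c y) :
    (((Y.ch g).filter fun c => Y.F c x = true).card % m =
      ((Y.ch g).filter fun c => Y.F c y = true).card % m) ∧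
    (∀ v : Bool, (∃ c ∈ Y.ch g, Y.F c x = v) ↔ (∃ c ∈ Y.ch g, Y.F c y = v)) ∧
    ((Y.ch g).card < B.card → ((Y.ch g).filter fun c => Y.F c x = true).card =
      ((Y.ch g).filter fun c => Y.F c y = true).card) := by
  classical
  refine ⟨?_, ?_, ?_⟩
  · have hsplit : ∀ u : β → Bool, ((Y.ch g).filter fun c => Y.F c u = true).card =
        ((Y.ch g).filter fun c => Y.F c u = true ∧ Disjoint (Y.Δ c) B).card +
          (Y.bad g B u).card := by
      intro u
      rw [bad, ← Finset.card_filter_add_card_filter_not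
        (s := (Y.ch g).filter fun c => Y.F c u = true) (fun c => Disjoint (Y.Δ c) B),
        Finset.filter_filter, Finset.filter_filter]
    rw [hsplit x, hsplit y]
    have h1 : ((Y.ch g).filter fun c => Y.F c x = true ∧ Disjoint (Y.Δ c) B) =
        ((Y.ch g).filter fun c => Y.F c y = true ∧ Disjoint (Y.Δ c) B) := by
      apply Finset.filter_congr
      intro c hc
      constructor
      · rintro ⟨h2, h3⟩; exact ⟨by rw [← hind c hc h3]; exact h2, h3⟩
      · rintro ⟨h2, h3⟩; exact ⟨by rw [hind c hc h3]; exact h2, h3⟩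
    have h2 := Y.dvd_card_bad hg hgB hx hk hB hm
    have h3 := Y.dvd_card_bad hg hgB hy hk hB hm
    rw [h1, Nat.add_mod, Nat.mod_eq_zero_of_dvd h2, Nat.add_mod _ (Y.bad g B y).card,
      Nat.mod_eq_zero_of_dvd h3]
  · intro v
    constructor
    · rintro ⟨c, hc, hv⟩
      obtain ⟨c', hc', h1, h2⟩ := Y.exists_child hg hgB hx hk (by omega) hZx hc
      exact ⟨c', hc', by rw [← hind c' hc' h1, h2, hv]⟩
    · rintro ⟨c, hc, hv⟩
      obtain ⟨c', hc', h1, h2⟩ := Y.exists_child hg hgB hy hk (by omega) hZy hc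
      exact ⟨c', hc', by rw [hind c' hc' h1, h2, hv]⟩
  · intro hlt
    congr 1
    apply Finset.filter_congr
    intro c hc
    have hd : Disjoint (Y.Δ c) B := by
      by_contra h
      have := Y.card_le_of_not_disjoint hg hgB hk hB hc h
      omega
    rw [hind c hc hd]

end Sys

end Pool.Agent.Helper18
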