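import Mathlib

/-!
# Subgroups of small index of symmetric groups contain a large alternating group

Elementary support theorem: a subgroup `H` of the symmetric group on `b` points whose index is
less than `b.choose k`, where `8 * k * (k + 1) ≤ b`, contains all even permutations supported on
some set of more than `b - k` points; that set is canonical (a class of an equivalence relation
defined by the three-cycles of `H`).
-/

set_option autoImplicit false

namespace Pool.Agent.Helper18

open Equiv Equiv.Perm Finset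

variable {α : Type*} [DecidableEq α]

omit [DecidableEq α] in
theorem ap_inv (σ : Perm α) (x : α) : σ (σ⁻¹ x) = x := σ.apply_symm_apply x

omit [DecidableEq α] in
theorem inv_ap (σ : Perm α) (x : α) : σ⁻¹ (σ x) = x := σ.symm_apply_apply x

/-- The permutation sending `i` to `j`, `j` to `l` and `l` to `i` (for distinct points). -/
def cyc (i j l : α) : Perm α := swap i j * swap j l

theorem cyc_fst {i j l : α} (hij : i ≠ j) (hil : i ≠ l) : cyc i j l i = j := by
  simp [cyc, swap_apply_of_ne_of_ne hij hil]

theorem cyc_snd {i j l : α} (hil : i ≠ l) (hjl : j ≠ l) : cyc i j l j = l := by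
  simp [cyc, swap_apply_of_ne_of_ne hil.symm hjl.symm]

theorem cyc_trd {i j l : α} : cyc i j l l = i := by
  simp [cyc]

theorem cyc_of_ne {i j l x : α} (hi : x ≠ i) (hj : x ≠ j) (hl : x ≠ l) : cyc i j l x = x := by
  simp [cyc, swap_apply_of_ne_of_ne hi hj, swap_apply_of_ne_of_ne hj hl]

theorem conj_cyc (σ : Perm α) (i j l : α) : σ * cyc i j l * σ⁻¹ = cyc (σ i) (σ j) (σ l) := by
  have h : ∀ a b : α, σ * swap a b * σ⁻¹ = swap (σ a) (σ b) := by
    intro a b
    rw [Equiv.swap_apply_apply]
  calc σ * cyc i j l * σ⁻¹ = (σ * swap i j * σ⁻¹) * (σ * swap j l * σ⁻¹) := by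
        simp only [cyc]; group
    _ = cyc (σ i) (σ j) (σ l) := by rw [h, h]; rfl

theorem cyc_inv {i j l : α} : (cyc i j l)⁻¹ = cyc l j i := by
  simp only [cyc, mul_inv_rev, swap_inv]
  rw [swap_comm j l, swap_comm i j]

theorem cyc_rot {i j l : α} (hij : i ≠ j) (hil : i ≠ l) (hjl : j ≠ l) :
    cyc i j l = cyc j l i := by
  ext x
  by_cases h1 : x = i
  · subst h1; rw [cyc_fst hij hil, cyc_trd]
  by_cases h2 : x = j
  · subst h2; rw [cyc_snd hil hjl, cyc_fst hjl hij.symm]
  by_cases h3 : x = l
  · subst h3; rw [cyc_trd, cyc_snd hij.symm hil.symm]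
  rw [cyc_of_ne h1 h2 h3, cyc_of_ne h2 h3 h1]

/-- Two points are linked by `H` when they are equal or lie on a common three-cycle of `H`. -/
def Linked (H : Subgroup (Perm α)) (i j : α) : Prop :=
  i = j ∨ ∃ l, i ≠ j ∧ i ≠ l ∧ j ≠ l ∧ cyc i j l ∈ H

variable {H : Subgroup (Perm α)}

theorem Linked.refl (i : α) : Linked H i i := Or.inl rfl

theorem mem_rot {i j l : α} (hij : i ≠ j) (hil : i ≠ l) (hjl : j ≠ l) (h : cyc i j l ∈ H) :
    cyc j l i ∈ H := by rwa [← cyc_rot hij hil hjl]

theorem mem_rev {i j l : α} (h : cyc i j l ∈ H) : cyc l j i ∈ H := by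
  rw [← cyc_inv]; exact H.inv_mem h

theorem Linked.symm {i j : α} (h : Linked H i j) : Linked H j i := by
  rcases h with rfl | ⟨l, hij, hil, hjl, h⟩
  · exact Or.inl rfl
  · refine Or.inr ⟨l, hij.symm, hjl, hil, ?_⟩
    exact mem_rot hjl.symm hil.symm hij.symm (mem_rev h)

omit [DecidableEq α] in
theorem mem_conj {σ τ : Perm α} (hσ : σ ∈ H) (hτ : τ ∈ H) : σ * τ * σ⁻¹ ∈ H :=
  H.mul_mem (H.mul_mem hσ hτ) (H.inv_mem hσ)

theorem Linked.trans {i j k : α} (h1 : Linked H i j) (h2 : Linked H j k) : Linked H i k := by
  rcases h1 with rfl | ⟨l, hij, hil, hjl, h⟩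
  · exact h2
  rcases h2 with rfl | ⟨q, hjk, hjq, hkq, h'⟩
  · exact Or.inr ⟨l, hij, hil, hjl, h⟩
  by_cases hik : i = k
  · exact Or.inl hik
  by_cases hiq : i = q
  · subst hiq
    refine Or.inr ⟨j, hik, hij, hjk.symm, ?_⟩
    exact mem_rev (by exact h')
  · refine Or.inr ⟨cyc j k q l, hik, ?_, ?_, ?_⟩
    · have hi : cyc j k q i = i := cyc_of_ne hij hik hiq
      intro hh
      apply hil
      apply (cyc j k q).injective
      rw [hi]; exact hh
    · have hi : cyc j k q j = k := cyc_fst hjk hjq
      intro hh
      apply hjl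
      apply (cyc j k q).injective
      rw [hi]; exact hh
    · have := mem_conj h' h
      rw [conj_cyc, cyc_of_ne hij hik hiq, cyc_fst hjk hjq] at this
      exact this

theorem cyc_mem_of_linked {i j l : α} (hij : i ≠ j) (hil : i ≠ l) (hjl : j ≠ l)
    (h1 : Linked H i j) (h2 : Linked H j l) : cyc i j l ∈ H := by
  rcases h1 with h1 | ⟨p, -, hip, hjp, hp⟩
  · exact absurd h1 hij
  by_cases hpl : p = l
  · subst hpl; exact hp
  have hpl' : Linked H p l := by
    have h3 : Linked H p j := (Linked.symm (Or.inr ⟨i, hjp, hij.symm, hip.symm, mem_rot hij hip hjp hp⟩))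
    exact h3.trans h2
  rcases hpl' with h3 | ⟨u, -, hpu, hlu, hu⟩
  · exact absurd h3 hpl
  by_cases hui : u = i
  · subst hui
    -- `hu : cyc p l u`, `hp : cyc u j p`
    have h4 := mem_conj hu hp
    rw [conj_cyc, cyc_trd, cyc_of_ne hjp hjl hij.symm, cyc_fst hpl hpu] at h4
    -- `h4 : cyc p j l ∈ H`
    have h5 := mem_conj hp hu
    rw [conj_cyc, cyc_trd, cyc_of_ne hil.symm hjl.symm (Ne.symm hpl), cyc_fst hij hip] at h5
    -- `h5 : cyc u l j ∈ H`
    have h6 := mem_rev h5
    -- `cyc j l u`
    exact mem_rot hil.symm hjl.symm hij (mem_rot hjl hij.symm hil.symm h6)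
  by_cases huj : u = j
  · subst huj
    -- `hu : cyc p l u`, `hp : cyc i u p`
    have h5 : (cyc i u p)⁻¹ * cyc p l u * ((cyc i u p)⁻¹)⁻¹ ∈ H := mem_conj (H.inv_mem hp) hu
    rw [conj_cyc, cyc_inv] at h5
    rw [cyc_fst hjp.symm hip.symm, cyc_of_ne (Ne.symm hpl) hjl.symm hil.symm,
      cyc_snd hip.symm (Ne.symm hij)] at h5
    -- `cyc u l i`
    exact mem_rot hil.symm hjl.symm hij (mem_rot hjl hij.symm hil.symm h5)
  · have h5 := mem_conj hu hp
    rw [conj_cyc, cyc_of_ne hip hil (Ne.symm hui), cyc_of_ne hjp hjl (Ne.symm huj),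
      cyc_fst hpl hpu] at h5
    exact h5

theorem linked_conj {π : Perm α} {H' : Subgroup (Perm α)}
    (hH : ∀ σ : Perm α, π * σ * π⁻¹ ∈ H' ↔ σ ∈ H) (i j : α) :
    Linked H' (π i) (π j) ↔ Linked H i j := by
  unfold Linked
  constructor
  · rintro (h | ⟨l, h1, h2, h3, h4⟩)
    · exact Or.inl (π.injective h)
    · refine Or.inr ⟨π⁻¹ l, fun h => h1 (by rw [h]), fun h => h2 (by rw [h]; simp),
        fun h => h3 (by rw [h]; simp), ?_⟩
      rw [← hH, conj_cyc]
      simpa using h4
  · rintro (h | ⟨l, h1, h2, h3, h4⟩)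
    · exact Or.inl (by rw [h])
    · refine Or.inr ⟨π l, fun h => h1 (π.injective h), fun h => h2 (π.injective h),
        fun h => h3 (π.injective h), ?_⟩
      rw [← conj_cyc, hH]
      exact h4

theorem linked_of_mem {σ : Perm α} (hσ : σ ∈ H) (i j : α) :
    Linked H (σ i) (σ j) ↔ Linked H i j := by
  apply linked_conj
  intro τ
  constructor
  · intro h
    have := mem_conj (H.inv_mem hσ) h
    simpa [mul_assoc] using this
  · exact mem_conj hσ

section fin

variable [Fintype α]

open Classical in
/-- The class of a point for the relation `Linked H`. -/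
noncomputable def cls (H : Subgroup (Perm α)) (i : α) : Finset α :=
  Finset.univ.filter fun j => Linked H i j

theorem mem_cls {i j : α} : j ∈ cls H i ↔ Linked H i j := by
  simp [cls]

theorem self_mem_cls (i : α) : i ∈ cls H i := mem_cls.mpr (Linked.refl i)

theorem cls_eq_of_linked {i j : α} (h : Linked H i j) : cls H i = cls H j := by
  ext x
  rw [mem_cls, mem_cls]
  exact ⟨fun h' => h.symm.trans h', fun h' => h.trans h'⟩

/-- Even permutations supported on a class belong to the group. -/
theorem mem_of_support_cls {i : α} {σ : Perm α} (hs : sign σ = 1)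
    (hσ : ∀ x, x ∉ cls H i → σ x = x) : σ ∈ H := by
  classical
  let p : α → Prop := fun x => x ∈ cls H i
  have hp : ∀ x, p (σ x) ↔ p x := by
    intro x
    constructor
    · intro h
      by_contra hx
      rw [hσ x hx] at h
      exact hx h
    · intro h
      by_contra hx
      have h1 := hσ _ hx
      have h2 : σ x = x := σ.injective h1
      rw [h2] at hx
      exact hx h
  have hle : alternatingGroup {x // p x} ≤ H.comap (ofSubtype (p := p)) := by
    rw [← closure_three_cycles_eq_alternating, Subgroup.closure_le]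
    intro g hg
    have hg3 : g.IsThreeCycle := hg
    obtain ⟨a, ha⟩ := hg3.isCycle.nonempty_support
    have hnd := hg3.nodup_iff_mem_support.mpr ha
    have hge := hg3.eq_swap_mul_swap_iff_mem_support.mpr ha
    simp only [List.nodup_cons, List.mem_cons, List.not_mem_nil, or_false, not_or,
      not_false_eq_true, List.nodup_nil, and_true] at hnd
    obtain ⟨⟨h1, h2⟩, h3⟩ := hnd
    change ofSubtype g ∈ H
    rw [hge, map_mul, ofSubtype_swap_eq, ofSubtype_swap_eq]
    change cyc _ _ _ ∈ H
    apply cyc_mem_of_linked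
    · exact fun h => h1 (Subtype.ext h)
    · exact fun h => h2 (Subtype.ext h)
    · exact fun h => h3 (Subtype.ext h)
    · exact (mem_cls.mp a.2).symm.trans (mem_cls.mp (g a).2)
    · exact (mem_cls.mp (g a).2).symm.trans (mem_cls.mp (g (g a)).2)
  have h1 : ofSubtype (σ.subtypePerm hp) = σ := by
    apply ofSubtype_subtypePerm
    intro x hx
    by_contra h
    exact hx (hσ x h)
  have h2 : σ.subtypePerm hp ∈ alternatingGroup {x // p x} := by
    rw [mem_alternatingGroup, ← sign_ofSubtype, h1, hs]
  have h3 := hle h2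
  rw [Subgroup.mem_comap, h1] at h3
  exact h3

/-- A Bochert type bound: a subgroup with no three-cycle has index at least `⌈N / 2⌉!`. -/
theorem bochert {β : Type*} [Fintype β] [DecidableEq β] (K : Subgroup (Perm β))
    (hK : ∀ i j l : β, i ≠ j → i ≠ l → j ≠ l → cyc i j l ∉ K) :
    ((Fintype.card β + 1) / 2).factorial ≤ K.index := by
  classical
  let fam : Finset β → Prop := fun D => ∀ h ∈ K, (∀ x ∈ D, h x = x) → h = 1
  have hex : ∃ D, fam D := ⟨Finset.univ, fun h _ hx => Equiv.ext fun x => hx x (mem_univ x)⟩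
  obtain ⟨D, hD, hmin⟩ : ∃ D, fam D ∧ ∀ D', fam D' → D.card ≤ D'.card := by
    obtain ⟨D, hD, h⟩ := Finset.exists_min_image (Finset.univ.filter fam)
      (fun D : Finset β => D.card) (by
        obtain ⟨D, hD⟩ := hex
        exact ⟨D, by simpa using hD⟩)
    exact ⟨D, by simpa using hD, fun D' hD' => h D' (by simpa using hD')⟩
  have hcard : K.index * Nat.card K = (Fintype.card β).factorial := by
    rw [mul_comm, K.card_mul_index, Nat.card_eq_fintype_card, Fintype.card_perm]
  by_cases h2 : 2 * D.card ≤ Fintype.card β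
  · -- small base
    have h3 : Nat.card K ≤ (Fintype.card β).descFactorial D.card := by
      have : Nat.card K ≤ Nat.card (D ↪ β) := by
        refine Nat.card_le_card_of_injective
          (fun h : K => (⟨fun x : D => (h : Perm β) x, fun x y hxy => Subtype.ext
            ((h : Perm β).injective hxy)⟩ : D ↪ β)) ?_
        intro h h' hh
        have h4 : (h : Perm β)⁻¹ * h' = 1 := by
          apply hD _ (K.mul_mem (K.inv_mem h.2) h'.2)
          intro x hx
          have h5 : (h : Perm β) x = (h' : Perm β) x :=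
            congrArg (fun f : D ↪ β => f ⟨x, hx⟩) hh
          rw [Perm.mul_apply, ← h5]
          simp
        exact Subtype.ext (inv_mul_eq_one.mp h4)
      rw [Nat.card_eq_fintype_card (α := D ↪ β), Fintype.card_embedding_eq,
        Fintype.card_coe] at this
      exact this
    have h4 := Nat.factorial_mul_descFactorial (n := Fintype.card β) (k := D.card)
      (Finset.card_le_univ D)
    have h5 : (Fintype.card β - D.card).factorial ≤ K.index := by
      have hpos : 0 < Nat.card K := Nat.card_pos
      have h6 : (Fintype.card β - D.card).factorial * Nat.card K ≤ K.index * Nat.card K := by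
        rw [hcard, ← h4]
        exact Nat.mul_le_mul_left _ h3
      exact Nat.le_of_mul_le_mul_right h6 hpos
    refine le_trans (Nat.factorial_le ?_) h5
    omega
  · exfalso
    have h3 : ¬ fam Dᶜ := by
      intro h
      have := hmin _ h
      rw [Finset.card_compl] at this
      omega
    simp only [fam, not_forall] at h3
    obtain ⟨u, huK, hu, hu1⟩ := h3
    have hu' : ∀ x, x ∉ D → u x = x := fun x hx => hu x (by simpa using hx)
    obtain ⟨a, ha⟩ : ∃ a, u a ≠ a := by
      by_contra hcon
      push Not at hcon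
      exact hu1 (Equiv.ext hcon)
    have haD : a ∈ D := by
      by_contra h
      exact ha (hu' a h)
    have h4 : ¬ fam (D.erase a) := by
      intro h
      have := hmin _ h
      rw [Finset.card_erase_of_mem haD] at this
      have : 0 < D.card := Finset.card_pos.mpr ⟨a, haD⟩
      omega
    simp only [fam, not_forall] at h4
    obtain ⟨v, hvK, hv, hv1⟩ := h4
    have hv' : ∀ x, x ∈ D → x ≠ a → v x = x := fun x hx hxa => hv x (by simp [hx, hxa])
    have hva : v a ≠ a := by
      intro h
      apply hv1
      apply hD v hvK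
      intro x hx
      by_cases hxa : x = a
      · rw [hxa, h]
      · exact hv' x hx hxa
    have huD : ∀ x, x ∈ D → u x ∈ D := by
      intro x hx
      by_contra h
      have := hu' _ h
      have := u.injective this
      rw [this] at h
      exact h hx
    have huD' : ∀ x, x ∈ D → u⁻¹ x ∈ D := by
      intro x hx
      by_contra h
      have h1 := hu' _ h
      rw [ap_inv] at h1
      rw [← h1] at h
      exact h hx
    have hui : ∀ x, x ∉ D → u⁻¹ x = x := by
      intro x hx
      rw [Perm.inv_eq_iff_eq]
      exact (hu' x hx).symm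
    have hvi : ∀ x, x ∈ D → x ≠ a → v⁻¹ x = x := by
      intro x hx hxa
      rw [Perm.inv_eq_iff_eq]
      exact (hv' x hx hxa).symm
    have hvaD : v a ∉ D := by
      intro h
      have := hv' _ h hva
      exact hva (v.injective this)
    have hviaD : v⁻¹ a ∉ D := by
      intro h
      have hne : v⁻¹ a ≠ a := by
        intro hh
        rw [Perm.inv_eq_iff_eq] at hh
        exact hva hh.symm
      have := hv' _ h hne
      rw [ap_inv] at this
      exact hne this.symm
    apply hK a (u a) (v a) ha.symm hva.symm (fun h => hvaD (h ▸ huD a haD))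
    have hw : u * v * u⁻¹ * v⁻¹ = cyc a (u a) (v a) := by
      ext x
      simp only [Perm.mul_apply]
      by_cases h1 : x = a
      · subst h1
        rw [cyc_fst ha.symm hva.symm, hui _ hviaD, ap_inv]
      by_cases h2' : x = u a
      · subst h2'
        rw [cyc_snd hva.symm (fun h => hvaD (h ▸ huD a haD)), hvi _ (huD a haD) ha,
          inv_ap, hu' _ hvaD]
      by_cases h3' : x = v a
      · subst h3'
        rw [cyc_trd, inv_ap, hv' _ (huD' a haD), ap_inv]
        intro h
        rw [Perm.inv_eq_iff_eq] at h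
        exact ha h.symm
      rw [cyc_of_ne h1 h2' h3']
      by_cases hxD : x ∈ D
      · rw [hvi x hxD h1, hv' _ (huD' x hxD), ap_inv]
        intro h
        rw [Perm.inv_eq_iff_eq] at h
        exact h2' h
      · have h5 : v⁻¹ x ∉ D := by
          intro h
          have hne : v⁻¹ x ≠ a := by
            intro hh
            rw [Perm.inv_eq_iff_eq] at hh
            exact h3' hh
          have h6 := hv' _ h hne
          rw [ap_inv] at h6
          rw [← h6] at h
          exact hxD h
        rw [hui _ h5, ap_inv, hu' x hxD]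
    rw [← hw]
    exact K.mul_mem (K.mul_mem (K.mul_mem huK hvK) (K.inv_mem huK)) (K.inv_mem hvK)

end fin

end Pool.Agent.Helper18
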