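import Pool.Agent.Helper18.Support

/-!
# Subgroups of small index of symmetric groups: existence of a large class
-/

set_option autoImplicit false

namespace Pool.Agent.Helper18

open Equiv Equiv.Perm Finset

/-! ### Numerical inequalities -/

theorem choose_mono_half {n r s : ℕ} (h : r ≤ s) (hs : 2 * s ≤ n) : n.choose r ≤ n.choose s := by
  induction s, h using Nat.le_induction with
  | base => exact le_rfl
  | succ s hrs ih =>
    exact (ih (by omega)).trans (Nat.choose_le_succ_of_lt_half_left (by omega))

theorem choose_le_pred_succ {b k : ℕ} (hk : 1 ≤ k) (hb : 3 * k + 3 ≤ b) :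
    b.choose k ≤ (b - 1).choose (k + 1) := by
  obtain ⟨b, rfl⟩ : ∃ b', b = b' + 1 := ⟨b - 1, by omega⟩
  obtain ⟨k, rfl⟩ : ∃ k', k = k' + 1 := ⟨k - 1, by omega⟩
  rw [Nat.choose_succ_succ', Nat.add_sub_cancel]
  have h1 : b.choose k ≤ b.choose (k + 1) := choose_mono_half (by omega) (by omega)
  have h2 := Nat.choose_succ_right_eq b (k + 1)
  have h3 : b.choose (k + 1) * (2 * (k + 1 + 1)) ≤ b.choose (k + 1 + 1) * (k + 1 + 1) := by
    rw [h2]
    exact Nat.mul_le_mul_left _ (by omega)
  have h4 : 2 * b.choose (k + 1) ≤ b.choose (k + 1 + 1) := by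
    have : 2 * b.choose (k + 1) * (k + 1 + 1) ≤ b.choose (k + 1 + 1) * (k + 1 + 1) := by
      calc 2 * b.choose (k + 1) * (k + 1 + 1) = b.choose (k + 1) * (2 * (k + 1 + 1)) := by ring
        _ ≤ _ := h3
    exact Nat.le_of_mul_le_mul_right this (by omega)
  omega

theorem pow_self_le_factorial_sq (q : ℕ) : q ^ q ≤ q.factorial * q.factorial := by
  have h1 : ∏ i ∈ Finset.range q, (i + 1) = q.factorial := Finset.prod_range_add_one_eq_factorial q
  have h2 : ∏ i ∈ Finset.range q, (q - 1 - i + 1) = q.factorial := by
    rw [Finset.prod_range_reflect (fun i => i + 1) q, h1]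
  calc q ^ q = ∏ _i ∈ Finset.range q, q := by simp
    _ ≤ ∏ i ∈ Finset.range q, ((i + 1) * (q - 1 - i + 1)) := by
      apply Finset.prod_le_prod'
      intro i hi
      rw [Finset.mem_range] at hi
      obtain ⟨j, rfl⟩ : ∃ j, q = i + j + 1 := ⟨q - i - 1, by omega⟩
      have : i + j + 1 - 1 - i + 1 = j + 1 := by omega
      rw [this]
      nlinarith [Nat.zero_le (i * j)]
    _ = q.factorial * q.factorial := by
      rw [Finset.prod_mul_distrib, h1, h2]

theorem choose_le_aux (q k : ℕ) : (2 * q * (k + 1)).choose k ≤ (8 * q) ^ k := by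
  have h1 : (2 * q * (k + 1)).descFactorial k ≤ (2 * q * (k + 1)) ^ k :=
    Nat.descFactorial_le_pow _ _
  rw [Nat.descFactorial_eq_factorial_mul_choose, mul_pow] at h1
  have h2 : (k + 1) ^ k ≤ k.factorial * 4 ^ k := by
    calc (k + 1) ^ k ≤ (k + 1).ascFactorial k := Nat.pow_succ_le_ascFactorial _ _
      _ = k.factorial * (k + k).choose k := Nat.ascFactorial_eq_factorial_mul_choose _ _
      _ ≤ k.factorial * 2 ^ (k + k) := Nat.mul_le_mul_left _ (Nat.choose_le_two_pow _ _)
      _ = k.factorial * 4 ^ k := by rw [← two_mul, pow_mul]; norm_num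
  have h3 : k.factorial * (2 * q * (k + 1)).choose k ≤ k.factorial * (8 * q) ^ k := by
    calc k.factorial * (2 * q * (k + 1)).choose k ≤ (2 * q) ^ k * (k + 1) ^ k := h1
      _ ≤ (2 * q) ^ k * (k.factorial * 4 ^ k) := Nat.mul_le_mul_left _ h2
      _ = k.factorial * (2 * q * 4) ^ k := by rw [mul_pow (2 * q) 4]; ring
      _ = k.factorial * (8 * q) ^ k := by congr 2; ring
  exact Nat.le_of_mul_le_mul_left h3 (Nat.factorial_pos k)

theorem choose_le_factorial {b k q : ℕ} (hk : 2 ≤ k) (hq : 4 * k ≤ q)
    (hb : b ≤ 2 * q * (k + 1)) : b.choose k ≤ q.factorial := by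
  have h1 : b.choose k ≤ (8 * q) ^ k :=
    (Nat.choose_le_choose k hb).trans (choose_le_aux q k)
  have h2 : ((8 * q) ^ k) ^ 2 ≤ q ^ q := by
    calc ((8 * q) ^ k) ^ 2 = ((8 * q) ^ 2) ^ k := by
          rw [← pow_mul, ← pow_mul, mul_comm k 2]
      _ ≤ (q ^ 4) ^ k := by
        apply Nat.pow_le_pow_left
        have : 64 * q ^ 2 ≤ q ^ 2 * q ^ 2 := Nat.mul_le_mul_right _ (by nlinarith)
        nlinarith
      _ = q ^ (4 * k) := by rw [← pow_mul]
      _ ≤ q ^ q := Nat.pow_le_pow_right (by omega) hq
  have h3 : (b.choose k) ^ 2 ≤ q.factorial ^ 2 := by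
    calc (b.choose k) ^ 2 ≤ ((8 * q) ^ k) ^ 2 := Nat.pow_le_pow_left h1 2
      _ ≤ q ^ q := h2
      _ ≤ q.factorial * q.factorial := pow_self_le_factorial_sq q
      _ = q.factorial ^ 2 := (sq _).symm
  exact (Nat.pow_le_pow_iff_left (by norm_num)).mp h3

/-! ### Translates of a set -/

variable {α : Type*} [DecidableEq α] [Fintype α]

theorem exists_perm_image {P R : Finset α} (h : P.card = R.card) :
    ∃ g : Perm α, P.image g = R := by
  have e : {x // x ∈ P} ≃ {x // x ∈ R} := Fintype.equivOfCardEq (by simpa using h)
  refine ⟨e.extendSubtype, ?_⟩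
  apply Finset.eq_of_subset_of_card_le
  · intro y hy
    obtain ⟨x, hx, rfl⟩ := Finset.mem_image.mp hy
    exact e.extendSubtype_mem x hx
  · rw [Finset.card_image_of_injective _ (Equiv.injective _), h]

open Classical in
/-- The translates of a finite set by the elements of a subgroup. -/
noncomputable def translates (H : Subgroup (Perm α)) (P : Finset α) : Finset (Finset α) :=
  Finset.univ.filter fun Q => ∃ h ∈ H, P.image h = Q

theorem mem_translates {H : Subgroup (Perm α)} {P Q : Finset α} :
    Q ∈ translates H P ↔ ∃ h ∈ H, P.image h = Q := by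
  simp [translates]

theorem choose_le_index_mul (H : Subgroup (Perm α)) (P : Finset α) :
    (Fintype.card α).choose P.card ≤ H.index * (translates H P).card := by
  classical
  have hfin : Finite (Perm α ⧸ H) := inferInstance
  have : Fintype (Perm α ⧸ H) := Fintype.ofFinite _
  let f : (Perm α ⧸ H) × Finset α → Finset α := fun p => p.2.image (Quotient.out p.1 : Perm α)
  have hsub : Finset.powersetCard P.card (Finset.univ : Finset α) ⊆
      ((Finset.univ : Finset (Perm α ⧸ H)) ×ˢ translates H P).image f := by
    intro R hR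
    rw [Finset.mem_powersetCard] at hR
    obtain ⟨g, hg⟩ := exists_perm_image (P := P) (R := R) hR.2.symm
    obtain ⟨h, hh⟩ := QuotientGroup.mk_out_eq_mul H g
    refine Finset.mem_image.mpr ⟨(QuotientGroup.mk g, P.image (((h : Perm α)⁻¹ : Perm α) : α → α)), ?_, ?_⟩
    · simp only [Finset.mem_product, Finset.mem_univ, true_and]
      exact mem_translates.mpr ⟨_, H.inv_mem h.2, rfl⟩
    · change (P.image (((h : Perm α)⁻¹ : Perm α) : α → α)).image
        (Quotient.out (QuotientGroup.mk g : Perm α ⧸ H) : Perm α) = R
      rw [hh, Finset.image_image, ← hg]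
      congr 1
      ext x
      simp
  have h1 := (Finset.card_le_card hsub).trans Finset.card_image_le
  rw [Finset.card_powersetCard, Finset.card_product] at h1
  rw [Subgroup.index_eq_card, Nat.card_eq_fintype_card]
  simpa using h1

omit [DecidableEq α] in
theorem index_comap_ofSubtype_le (H : Subgroup (Perm α)) (p : α → Prop) [DecidablePred p] :
    (H.comap (ofSubtype (p := p))).index ≤ H.index := by
  rw [Subgroup.index_comap]
  have h := Subgroup.relIndex_le_of_le_right (H := H)
    (le_top : (ofSubtype (p := p)).range ≤ (⊤ : Subgroup (Perm α)))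
    (by rw [Subgroup.relIndex_top_right]; exact Subgroup.index_ne_zero_of_finite)
  rwa [Subgroup.relIndex_top_right] at h

/-- **Support theorem.**  A subgroup of small index has a class of more than `b - k` points. -/
theorem exists_large_cls (H : Subgroup (Perm α)) {k : ℕ} (hk : 2 ≤ k)
    (hb : 8 * k * (k + 1) ≤ Fintype.card α) (hidx : H.index < (Fintype.card α).choose k) :
    ∃ i, Fintype.card α < (cls H i).card + k := by
  classical
  by_contra hcon
  push Not at hcon
  set b := Fintype.card α with hbdef
  have hkb : 8 * k * (k + 1) = 8 * k * k + 8 * k := by ring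
  have hkk : 2 * k ≤ k * k := Nat.mul_le_mul_right k hk
  have hbpos : 0 < b := by nlinarith
  have hne : (Finset.univ : Finset α).Nonempty :=
    Finset.card_pos.mp (by rw [Finset.card_univ]; exact hbpos)
  obtain ⟨i₀, -, hmax⟩ := Finset.exists_max_image Finset.univ (fun i => (cls H i).card) hne
  set c := (cls H i₀).card with hc
  have hmax' : ∀ i, (cls H i).card ≤ c := fun i => hmax i (mem_univ i)
  by_cases hck : c ≤ k + 1
  · -- all classes are small: a transversal carries no three-cycle
    let st : Setoid α := ⟨Linked H, ⟨Linked.refl, Linked.symm, Linked.trans⟩⟩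
    let rep : α → α := fun i => (Quotient.mk st i).out
    have hrep : ∀ i, Linked H i (rep i) := by
      intro i
      have : st (rep i) i := Quotient.mk_out (s := st) i
      exact Linked.symm this
    have hrep' : ∀ i j, Linked H i j → rep i = rep j := by
      intro i j h
      have : Quotient.mk st i = Quotient.mk st j := Quotient.sound h
      simp only [rep, this]
    let S : Finset α := Finset.univ.image rep
    have hS : ∀ r ∈ S, rep r = r := by
      intro r hr
      obtain ⟨i, -, rfl⟩ := Finset.mem_image.mp hr
      exact (hrep' _ _ (hrep i)).symm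
    have hcard : b ≤ (k + 1) * S.card := by
      have := Finset.card_le_mul_card_image (f := rep) (Finset.univ : Finset α) (k + 1) (by
        intro r hr
        obtain ⟨i, -, rfl⟩ := Finset.mem_image.mp hr
        refine le_trans (Finset.card_le_card (t := cls H (rep i)) ?_) ((hmax' _).trans hck)
        intro x hx
        rw [Finset.mem_filter] at hx
        rw [mem_cls, ← hx.2]
        exact (hrep x).symm)
      simpa using this
    have hno : ∀ i j l : {x // x ∈ S}, i ≠ j → i ≠ l → j ≠ l →
        cyc i j l ∉ H.comap (ofSubtype (p := fun x => x ∈ S)) := by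
      intro i j l hij hil hjl h
      rw [Subgroup.mem_comap, cyc, map_mul, ofSubtype_swap_eq, ofSubtype_swap_eq] at h
      have h1 : Linked H (i : α) j := Or.inr ⟨l, fun h => hij (Subtype.ext h),
        fun h => hil (Subtype.ext h), fun h => hjl (Subtype.ext h), h⟩
      apply hij
      apply Subtype.ext
      rw [← hS i i.2, ← hS j j.2]
      exact hrep' _ _ h1
    have h1 := bochert _ hno
    have h2 := h1.trans (index_comap_ofSubtype_le H _)
    rw [Fintype.card_coe] at h2
    have h3 : 8 * k ≤ S.card := by
      have : (k + 1) * (8 * k) ≤ (k + 1) * S.card := by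
        calc (k + 1) * (8 * k) = 8 * k * (k + 1) := by ring
          _ ≤ b := hb
          _ ≤ _ := hcard
      exact Nat.le_of_mul_le_mul_left this (by omega)
    have h4 : b.choose k ≤ ((S.card + 1) / 2).factorial := by
      apply choose_le_factorial hk (by omega)
      calc b ≤ (k + 1) * S.card := hcard
        _ ≤ (k + 1) * (2 * ((S.card + 1) / 2)) := Nat.mul_le_mul_left _ (by omega)
        _ = _ := by ring
    omega
  · -- a large class
    push Not at hck
    have hcov := choose_le_index_mul H (cls H i₀)
    rw [← hc, ← hbdef] at hcov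
    have himg : ∀ h ∈ H, (cls H i₀).image h = cls H (h i₀) := by
      intro h hh
      ext x
      rw [Finset.mem_image, mem_cls]
      constructor
      · rintro ⟨y, hy, rfl⟩
        rw [linked_of_mem hh]
        exact mem_cls.mp hy
      · intro hx
        refine ⟨h⁻¹ x, ?_, ap_inv h x⟩
        rw [mem_cls, ← linked_of_mem hh, ap_inv]
        exact hx
    have htr : ∀ Q ∈ translates H (cls H i₀), ∃ j, Q = cls H j ∧ Q.card = c := by
      intro Q hQ
      obtain ⟨h, hh, rfl⟩ := mem_translates.mp hQ
      exact ⟨h i₀, himg h hh, by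
        rw [Finset.card_image_of_injective _ (Equiv.injective h)]⟩
    have hdisj : ∀ Q ∈ translates H (cls H i₀), ∀ Q' ∈ translates H (cls H i₀), Q ≠ Q' →
        Disjoint Q Q' := by
      intro Q hQ Q' hQ' hne
      obtain ⟨j, rfl, -⟩ := htr Q hQ
      obtain ⟨j', rfl, -⟩ := htr Q' hQ'
      rw [Finset.disjoint_left]
      intro x hx hx'
      exact hne ((cls_eq_of_linked (mem_cls.mp hx)).trans
        (cls_eq_of_linked (mem_cls.mp hx')).symm)
    have hsum : c * (translates H (cls H i₀)).card ≤ b := by
      have h1 : ((translates H (cls H i₀)).biUnion id).card =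
          ∑ Q ∈ translates H (cls H i₀), Q.card :=
        Finset.card_biUnion (fun Q hQ Q' hQ' hne => hdisj Q hQ Q' hQ' hne)
      have h2 : ∑ Q ∈ translates H (cls H i₀), Q.card =
          (translates H (cls H i₀)).card * c := by
        rw [Finset.sum_const_nat]
        intro Q hQ
        exact (htr Q hQ).choose_spec.2
      rw [mul_comm, ← h2, ← h1]
      exact Finset.card_le_univ _
    have hcb : c + k ≤ b := hcon i₀
    by_cases h2c : 2 * c ≤ b
    · have h1 : b * (b - 1).choose (c - 1) ≤ b * H.index := by
        obtain ⟨b', hb'⟩ : ∃ b', b = b' + 1 := ⟨b - 1, by omega⟩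
        obtain ⟨c', hc'⟩ : ∃ c', c = c' + 1 := ⟨c - 1, by omega⟩
        have h3 := Nat.add_one_mul_choose_eq b' c'
        have h4 : b * (b - 1).choose (c - 1) = b.choose c * c := by
          rw [hb', hc']
          simpa using h3
        rw [h4]
        calc b.choose c * c ≤ (H.index * (translates H (cls H i₀)).card) * c :=
              Nat.mul_le_mul_right _ hcov
          _ = H.index * (c * (translates H (cls H i₀)).card) := by ring
          _ ≤ H.index * b := Nat.mul_le_mul_left _ hsum
          _ = b * H.index := by ring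
      have h2 : (b - 1).choose (c - 1) ≤ H.index := Nat.le_of_mul_le_mul_left h1 hbpos
      have h3 : (b - 1).choose (k + 1) ≤ (b - 1).choose (c - 1) :=
        choose_mono_half (by omega) (by omega)
      have h4 : b.choose k ≤ (b - 1).choose (k + 1) := by
        apply choose_le_pred_succ (by omega)
        nlinarith
      omega
    · have h1 : (translates H (cls H i₀)).card ≤ 1 := by
        by_contra hgt
        push Not at hgt
        have : c * 2 ≤ c * (translates H (cls H i₀)).card := Nat.mul_le_mul_left _ hgt
        omega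
      have h2 : b.choose c ≤ H.index := by
        calc b.choose c ≤ H.index * (translates H (cls H i₀)).card := hcov
          _ ≤ H.index * 1 := Nat.mul_le_mul_left _ h1
          _ = H.index := mul_one _
      have h3 : b.choose c = b.choose (b - c) := (Nat.choose_symm (by omega)).symm
      have h4 : b.choose k ≤ b.choose (b - c) := choose_mono_half (by omega) (by omega)
      omega

end Pool.Agent.Helper18
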