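import Pool.Agent.Helper18.Moves
import Pool.Agent.Helper18.Circuit

/-!
# Block symmetric circuits of small size are insensitive to a periodic change of weight
-/

set_option autoImplicit false

namespace Pool.Agent.Helper18

open Equiv Equiv.Perm Finset

namespace Circuit

variable {n s t : ℕ} {m : ℕ} {C : Circuit n s t}

theorem IsRun.unique {x : Fin n → Bool} {v w : Fin s → Bool} (hv : IsRun m C x v)
    (hw : IsRun m C x w) : v = w := by
  have key : ∀ l, ∀ g, C.level g = l → v g = w g := by
    intro l
    induction l using Nat.strong_induction_on with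
    | _ l ih =>
      intro g hg
      have h1 : (C.args g).filter (fun h => v h = true) = (C.args g).filter fun h => w h = true := by
        apply Finset.filter_congr
        intro h hh
        rw [ih (C.level h) (hg ▸ C.level_lt g h hh) h rfl]
      have h2 : C.trueInputs x v g = C.trueInputs x w g := by
        rw [trueInputs, trueInputs, h1]
      rw [Bool.eq_iff_iff, hv g, hw g, h2]
  funext g
  exact key _ g rfl

theorem card_filter_perm {A : Type*} [DecidableEq A] {S T : Finset A} {ρ : Perm A}
    (h : ∀ i, ρ i ∈ T ↔ i ∈ S) (p : A → Prop) [DecidablePred p] :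
    (T.filter p).card = (S.filter fun i => p (ρ i)).card := by
  symm
  apply Finset.card_bij (fun i _ => ρ i)
  · intro i hi
    rw [Finset.mem_filter] at hi ⊢
    exact ⟨(h i).mpr hi.1, hi.2⟩
  · intro i _ j _ hij
    exact ρ.injective hij
  · intro j hj
    rw [Finset.mem_filter] at hj
    refine ⟨ρ⁻¹ j, ?_, ap_inv ρ j⟩
    rw [Finset.mem_filter, ← h, ap_inv]
    exact hj

theorem card_perm {A : Type*} [DecidableEq A] {S T : Finset A} {ρ : Perm A}
    (h : ∀ i, ρ i ∈ T ↔ i ∈ S) : T.card = S.card := by
  have := card_filter_perm h (fun _ => True)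
  simpa using this

theorem IsRun.transport {x : Fin n → Bool} {v : Fin s → Bool} (hv : IsRun m C x v)
    {ρ : Perm (Fin n)} {τ : Perm (Fin s)} (ha : C.IsAut ρ τ) :
    IsRun m C (x ∘ ρ) (v ∘ τ) := by
  intro g
  obtain ⟨h1, h2, h3, -⟩ := ha
  have h4 : C.trueInputs x v (τ g) = C.trueInputs (x ∘ ρ) (v ∘ τ) g := by
    rw [trueInputs, trueInputs, card_filter_perm (h2 g) (fun i => x i = true),
      card_filter_perm (h3 g) (fun i => v i = true)]
    rfl
  have h5 : (C.vars (τ g)).card = (C.vars g).card := card_perm (h2 g)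
  have h6 : (C.args (τ g)).card = (C.args g).card := card_perm (h3 g)
  have := hv (τ g)
  rw [h1, h4, h5, h6] at this
  exact this

end Circuit

open Circuit

variable {n s t b : ℕ}

/-- The permutation `π` of the blocks extends to the automorphism given by `ρ` and `τ`. -/
def Ext (C : Circuit n s t) (blk : Fin n → Option (Fin b)) (z : Fin n → Bool) (π : Perm (Fin b))
    (ρ : Perm (Fin n)) (τ : Perm (Fin s)) : Prop :=
  C.IsAut ρ τ ∧ ∀ i, (blk i = none → blk (ρ i) = none ∧ z (ρ i) = z i) ∧
    (∀ j, blk i = some j → blk (ρ i) = some (π j))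

variable {C : Circuit n s t} {blk : Fin n → Option (Fin b)} {z : Fin n → Bool}

theorem Ext.one : Ext C blk z 1 1 1 := by
  refine ⟨⟨fun g => rfl, fun g i => Iff.rfl, fun g h => Iff.rfl, rfl⟩,
    fun i => ⟨fun h => ⟨h, rfl⟩, ?_⟩⟩
  intro j hj
  exact hj

theorem Ext.mul {π π' : Perm (Fin b)} {ρ ρ' : Perm (Fin n)} {τ τ' : Perm (Fin s)}
    (h : Ext C blk z π ρ τ) (h' : Ext C blk z π' ρ' τ') : Ext C blk z (π * π') (ρ * ρ') (τ * τ') := by
  obtain ⟨⟨h1, h2, h3, h4⟩, h5⟩ := h
  obtain ⟨⟨h1', h2', h3', h4'⟩, h5'⟩ := h'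
  refine ⟨⟨fun g => ?_, fun g i => ?_, fun g i => ?_, ?_⟩, fun i => ⟨fun hi => ?_, fun j hj => ?_⟩⟩
  · rw [Perm.mul_apply, h1, h1']
  · rw [Perm.mul_apply, Perm.mul_apply, h2, h2']
  · rw [Perm.mul_apply, Perm.mul_apply, h3, h3']
  · rw [Perm.mul_apply, h4', h4]
  · obtain ⟨h6, h7⟩ := (h5' i).1 hi
    obtain ⟨h8, h9⟩ := (h5 (ρ' i)).1 h6
    exact ⟨h8, h9.trans h7⟩
  · rw [Perm.mul_apply, Perm.mul_apply]
    exact (h5 _).2 _ ((h5' i).2 j hj)

theorem Ext.inv {π : Perm (Fin b)} {ρ : Perm (Fin n)} {τ : Perm (Fin s)}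
    (h : Ext C blk z π ρ τ) : Ext C blk z π⁻¹ ρ⁻¹ τ⁻¹ := by
  obtain ⟨⟨h1, h2, h3, h4⟩, h5⟩ := h
  refine ⟨⟨fun g => ?_, fun g i => ?_, fun g i => ?_, ?_⟩, fun i => ⟨fun hi => ?_, fun j hj => ?_⟩⟩
  · rw [← h1 (τ⁻¹ g), ap_inv]
  · rw [← h2 (τ⁻¹ g) (ρ⁻¹ i), ap_inv, ap_inv]
  · rw [← h3 (τ⁻¹ g) (τ⁻¹ i), ap_inv, ap_inv]
  · rw [Perm.inv_eq_iff_eq, h4]
  · have h6 := h5 (ρ⁻¹ i)
    rw [ap_inv] at h6
    cases hb : blk (ρ⁻¹ i) with
    | none => exact ⟨rfl, (h6.1 hb).2.symm⟩
    | some j' =>
      have h7 := h6.2 j' hb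
      rw [hi] at h7
      cases h7
  · have h6 := h5 (ρ⁻¹ i)
    rw [ap_inv] at h6
    cases hb : blk (ρ⁻¹ i) with
    | none =>
      have h7 := (h6.1 hb).1
      rw [hj] at h7
      cases h7
    | some j' =>
      have h7 := h6.2 j' hb
      rw [hj] at h7
      have h8 : j = π j' := Option.some.inj h7
      rw [h8, inv_ap]

/-- The permutations of the blocks extending to an automorphism that fixes the gate `g`. -/
def stab (C : Circuit n s t) (blk : Fin n → Option (Fin b)) (z : Fin n → Bool) (g : Fin s) :
    Subgroup (Perm (Fin b)) where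
  carrier := {π | ∃ ρ τ, Ext C blk z π ρ τ ∧ τ g = g}
  one_mem' := ⟨1, 1, Ext.one, rfl⟩
  mul_mem' := by
    rintro π π' ⟨ρ, τ, h, hg⟩ ⟨ρ', τ', h', hg'⟩
    exact ⟨ρ * ρ', τ * τ', h.mul h', by rw [Perm.mul_apply, hg', hg]⟩
  inv_mem' := by
    rintro π ⟨ρ, τ, h, hg⟩
    exact ⟨ρ⁻¹, τ⁻¹, h.inv, by rw [Perm.inv_eq_iff_eq, hg]⟩

theorem mem_stab {g : Fin s} {π : Perm (Fin b)} :
    π ∈ stab C blk z g ↔ ∃ ρ τ, Ext C blk z π ρ τ ∧ τ g = g := Iff.rfl

theorem index_stab_le (hsym : C.BlockSymmetric blk z) (g : Fin s) : (stab C blk z g).index ≤ s := by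
  have hsym' : ∀ π : Perm (Fin b), ∃ ρ τ, Ext C blk z π ρ τ := hsym
  choose ρ τ hE using hsym'
  have hinj : Function.Injective
      (fun q : Perm (Fin b) ⧸ stab C blk z g => τ q.out g) := by
    intro q q' hqq
    have hqq' : τ q.out g = τ q'.out g := hqq
    have h1 : (q.out)⁻¹ * q'.out ∈ stab C blk z g := by
      refine ⟨_, _, (hE q.out).inv.mul (hE q'.out), ?_⟩
      rw [Perm.mul_apply, ← hqq', inv_ap]
    have h2 := QuotientGroup.eq.mpr h1
    rwa [QuotientGroup.out_eq', QuotientGroup.out_eq'] at h2
  have h3 := Nat.card_le_card_of_injective _ hinj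
  rw [Subgroup.index_eq_card]
  simpa using h3

theorem conj_mem_stab {g : Fin s} {π : Perm (Fin b)} {ρ : Perm (Fin n)} {τ : Perm (Fin s)}
    (h : Ext C blk z π ρ τ) (σ : Perm (Fin b)) :
    π * σ * π⁻¹ ∈ stab C blk z (τ g) ↔ σ ∈ stab C blk z g := by
  constructor
  · rintro ⟨ρ', τ', h', hg⟩
    have h5 : π⁻¹ * (π * σ * π⁻¹) * π ∈ stab C blk z g := by
      refine ⟨_, _, (h.inv.mul h').mul h, ?_⟩
      rw [Perm.mul_apply, Perm.mul_apply, hg, inv_ap]
    have h6 : π⁻¹ * (π * σ * π⁻¹) * π = σ := by group
    rwa [h6] at h5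
  · rintro ⟨ρ', τ', h', hg⟩
    refine ⟨_, _, (h.mul h').mul h.inv, ?_⟩
    rw [Perm.mul_apply, Perm.mul_apply, inv_ap, hg]

/-- The support of a gate. -/
noncomputable def gateSupp (C : Circuit n s t) (blk : Fin n → Option (Fin b)) (z : Fin n → Bool)
    (g : Fin s) : Finset (Fin b) :=
  Finset.univ.filter fun i => 2 * (cls (stab C blk z g) i).card ≤ b

theorem gateSupp_ext {g : Fin s} {π : Perm (Fin b)} {ρ : Perm (Fin n)} {τ : Perm (Fin s)}
    (h : Ext C blk z π ρ τ) : gateSupp C blk z (τ g) = (gateSupp C blk z g).image π := by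
  have h1 : ∀ i, cls (stab C blk z (τ g)) (π i) = (cls (stab C blk z g) i).image π := by
    intro i
    ext x
    rw [mem_cls, Finset.mem_image]
    constructor
    · intro hx
      refine ⟨π⁻¹ x, ?_, ap_inv π x⟩
      rw [mem_cls, ← linked_conj (conj_mem_stab h), ap_inv]
      exact hx
    · rintro ⟨y, hy, rfl⟩
      rw [linked_conj (conj_mem_stab h)]
      exact mem_cls.mp hy
  ext x
  rw [gateSupp, Finset.mem_filter, Finset.mem_image]
  constructor
  · rintro ⟨-, hx⟩
    refine ⟨π⁻¹ x, ?_, ap_inv π x⟩
    rw [gateSupp, Finset.mem_filter]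
    refine ⟨mem_univ _, ?_⟩
    have h2 := h1 (π⁻¹ x)
    rw [ap_inv] at h2
    rwa [h2, Finset.card_image_of_injective _ π.injective] at hx
  · rintro ⟨y, hy, rfl⟩
    rw [gateSupp, Finset.mem_filter] at hy
    refine ⟨mem_univ _, ?_⟩
    rw [h1, Finset.card_image_of_injective _ π.injective]
    exact hy.2

section small

variable {k : ℕ} (hk : 2 ≤ k) (hb : 8 * k * (k + 1) ≤ b) (hs : s < b.choose k)
  (hsym : C.BlockSymmetric blk z)

include hk hb hs hsym

theorem gate_cls (g : Fin s) : ∃ i, (gateSupp C blk z g).card < k ∧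
    ∀ x, x ∉ cls (stab C blk z g) i → x ∈ gateSupp C blk z g := by
  obtain ⟨i, hi⟩ := exists_large_cls (stab C blk z g) hk (by rwa [Fintype.card_fin])
    (by rw [Fintype.card_fin]; exact (index_stab_le hsym g).trans_lt hs)
  rw [Fintype.card_fin] at hi
  have hkb : 2 * k < b := by nlinarith
  refine ⟨i, ?_, ?_⟩
  · have h1 : gateSupp C blk z g ⊆ (cls (stab C blk z g) i)ᶜ := by
      intro x hx
      rw [Finset.mem_compl]
      intro hx'
      rw [gateSupp, Finset.mem_filter, ← cls_eq_of_linked (mem_cls.mp hx')] at hx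
      omega
    have h2 := Finset.card_le_card h1
    rw [Finset.card_compl, Fintype.card_fin] at h2
    omega
  · intro x hx
    rw [gateSupp, Finset.mem_filter]
    refine ⟨mem_univ _, ?_⟩
    have h1 : cls (stab C blk z g) x ⊆ (cls (stab C blk z g) i)ᶜ := by
      intro y hy
      rw [Finset.mem_compl]
      intro hy'
      apply hx
      rw [mem_cls] at hy hy' ⊢
      exact hy'.trans hy.symm
    have h2 := Finset.card_le_card h1
    rw [Finset.card_compl, Fintype.card_fin] at h2
    omega

theorem gate_supported (g : Fin s) (π : Perm (Fin b)) (h1 : sign π = 1)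
    (h2 : ∀ x ∈ gateSupp C blk z g, π x = x) : π ∈ stab C blk z g := by
  obtain ⟨i, -, hi⟩ := gate_cls hk hb hs hsym g
  exact mem_of_support_cls h1 (fun x hx => h2 x (hi x hx))

omit hs in
theorem gateSupp_out : gateSupp C blk z C.out = ∅ := by
  have h1 : stab C blk z C.out = ⊤ := by
    rw [eq_top_iff]
    intro π _
    obtain ⟨ρ, τ, h⟩ := hsym π
    exact ⟨ρ, τ, h, h.1.2.2.2⟩
  have hkb : 2 * k < b := by nlinarith
  rw [Finset.eq_empty_iff_forall_notMem]
  intro i hi
  rw [gateSupp, Finset.mem_filter, h1] at hi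
  have h2 : cls (⊤ : Subgroup (Perm (Fin b))) i = Finset.univ := by
    ext j
    simp only [mem_cls, mem_univ, iff_true]
    by_cases hij : i = j
    · exact Or.inl hij
    · obtain ⟨l, hl⟩ : ∃ l, l ∉ ({i, j} : Finset (Fin b)) := by
        by_contra hcon
        push Not at hcon
        have h3 : (Finset.univ : Finset (Fin b)) ⊆ {i, j} := fun x _ => hcon x
        have h4 := (Finset.card_le_card h3).trans Finset.card_le_two
        rw [Finset.card_univ, Fintype.card_fin] at h4
        omega
      simp only [Finset.mem_insert, Finset.mem_singleton, not_or] at hl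
      exact Or.inr ⟨l, hij, Ne.symm hl.1, Ne.symm hl.2, Subgroup.mem_top _⟩
  rw [h2, Finset.card_univ, Fintype.card_fin] at hi
  omega

end small

/-- The assignment of the variables given by values of the blocks and of the other variables. -/
def asg (blk : Fin n → Option (Fin b)) (z : Fin n → Bool) (u : Fin b → Bool) (i : Fin n) : Bool :=
  match blk i with
  | some j => u j
  | none => z i

theorem asg_ext {π : Perm (Fin b)} {ρ : Perm (Fin n)} {τ : Perm (Fin s)}
    (h : Ext C blk z π ρ τ) (u : Fin b → Bool) : asg blk z (u ∘ π) = asg blk z u ∘ ρ := by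
  funext i
  simp only [asg, Function.comp_apply]
  cases hb : blk i with
  | none =>
    obtain ⟨h1, h2⟩ := (h.2 i).1 hb
    rw [h1, h2]
  | some j =>
    rw [(h.2 i).2 j hb]

/-- The abstract system of a circuit. -/
noncomputable def sys (m : ℕ) (C : Circuit n s t) (blk : Fin n → Option (Fin b)) (z : Fin n → Bool)
    (val : (Fin n → Bool) → Fin s → Bool) (hval : ∀ x, IsRun m C x (val x)) :
    Sys (Fin b) (Fin n ⊕ Fin s) where
  ch := fun c => match c with
    | Sum.inl _ => ∅
    | Sum.inr g => (C.vars g).disjSum (C.args g)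
  F := fun c u => match c with
    | Sum.inl i => asg blk z u i
    | Sum.inr g => val (asg blk z u) g
  Δ := fun c => match c with
    | Sum.inl i => match blk i with
      | some j => {j}
      | none => ∅
    | Sum.inr g => gateSupp C blk z g
  Act := fun π σ => ∃ ρ τ, Ext C blk z π ρ τ ∧ σ = Equiv.sumCongr ρ τ
  act_F := by
    rintro π σ ⟨ρ, τ, h, rfl⟩ c u
    cases c with
    | inl i =>
      have := congrFun (asg_ext h u) i
      simpa using this.symm
    | inr g =>
      have h1 := (hval (asg blk z u)).transport h.1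
      have h2 := IsRun.unique h1 (hval _)
      have h3 := congrFun h2 g
      rw [← asg_ext h u] at h3
      simpa using h3
  act_Δ := by
    rintro π σ ⟨ρ, τ, h, rfl⟩ c
    cases c with
    | inl i =>
      cases hb : blk i with
      | none =>
        have h1 := ((h.2 i).1 hb).1
        simp [h1, hb]
      | some j =>
        have h1 := (h.2 i).2 j hb
        simp [h1, hb]
    | inr g =>
      simpa using gateSupp_ext (g := g) h
  act_ch := by
    rintro π σ ⟨ρ, τ, h, rfl⟩ c g
    cases g with
    | inl i => simp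
    | inr g =>
      cases c with
      | inl i => simpa using h.1.2.1 g i
      | inr f => simpa using h.1.2.2.1 g f

theorem card_disjSum_filter {A B : Type*} (S : Finset A) (T : Finset B) (p : A ⊕ B → Prop)
    [DecidablePred p] : ((S.disjSum T).filter p).card =
      (S.filter fun a => p (Sum.inl a)).card + (T.filter fun a => p (Sum.inr a)).card := by
  have : (S.disjSum T).filter p =
      (S.filter fun a => p (Sum.inl a)).disjSum (T.filter fun a => p (Sum.inr a)) := by
    ext c
    cases c <;> simp
  rw [this, Finset.card_disjSum]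

/-- **Structure theorem**: a small block symmetric circuit does not notice that a set `B` of
blocks, whose size has suitable divisibility properties, is switched from `0` to `1`. -/
theorem output_eq {m k : ℕ} (hk : 2 ≤ k) (hb : 8 * k * (k + 1) ≤ b) (hs : s < b.choose k)
    (hsym : C.BlockSymmetric blk z) (val : (Fin n → Bool) → Fin s → Bool)
    (hval : ∀ x, IsRun m C x (val x)) (B : Finset (Fin b)) (hB : k + 1 ≤ B.card)
    (hm : ∀ j, 1 ≤ j → j < k → m ∣ B.card.choose j) (ht : t < B.card) (x y : Fin b → Bool)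
    (hx : ∀ i ∈ B, x i = false) (hy : ∀ i ∈ B, y i = true) (hxy : ∀ i, i ∉ B → x i = y i)
    (hZx : 2 * k ≤ (Finset.univ.filter fun i => i ∉ B ∧ x i = false).card)
    (hZy : 2 * k ≤ (Finset.univ.filter fun i => i ∉ B ∧ y i = true).card) :
    val (asg blk z x) C.out = val (asg blk z y) C.out := by
  classical
  let Y := sys m C blk z val hval
  have hsmall : ∀ c, (Y.Δ c).card < k := by
    intro c
    cases c with
    | inl i =>
      change (match blk i with
        | some j => ({j} : Finset (Fin b))
        | none => ∅).card < k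
      cases blk i with
      | none => simp; omega
      | some j => simp; omega
    | inr g =>
      obtain ⟨i, hi, -⟩ := gate_cls hk hb hs hsym g
      exact hi
  have hsupp : ∀ g : Fin s, Y.Supported (Sum.inr g) := by
    intro g π h1 h2
    obtain ⟨ρ, τ, h3, h4⟩ := gate_supported hk hb hs hsym g π h1 h2
    refine ⟨Equiv.sumCongr ρ τ, ⟨ρ, τ, h3, rfl⟩, ?_⟩
    simp [h4]
  have key : ∀ l, ∀ g, C.level g = l → Disjoint (gateSupp C blk z g) B →
      val (asg blk z x) g = val (asg blk z y) g := by
    intro l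
    induction l using Nat.strong_induction_on with
    | _ l ih =>
      intro g hg hgB
      have hind : ∀ c ∈ Y.ch (Sum.inr g), Disjoint (Y.Δ c) B → Y.F c x = Y.F c y := by
        intro c hc hcB
        cases c with
        | inl i =>
          change asg blk z x i = asg blk z y i
          change Disjoint (match blk i with
            | some j => ({j} : Finset (Fin b))
            | none => ∅) B at hcB
          unfold asg
          cases hbi : blk i with
          | none => rfl
          | some j =>
            rw [hbi] at hcB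
            exact hxy j (Finset.disjoint_singleton_left.mp hcB)
        | inr h =>
          have hc' : h ∈ C.args g := Finset.inr_mem_disjSum.mp hc
          exact ih (C.level h) (hg ▸ C.level_lt g h hc') h rfl hcB
      obtain ⟨h1, h2, h2'⟩ := Y.compare (hsupp g) hgB hx hy hsmall hB (by omega) hm hZx hZy hind
      have hcount : ∀ u : Fin b → Bool, ((Y.ch (Sum.inr g)).filter fun c => Y.F c u = true).card =
          C.trueInputs (asg blk z u) (val (asg blk z u)) g := by
        intro u
        exact card_disjSum_filter (C.vars g) (C.args g) (fun c => Y.F c u = true)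
      have hzero : ∀ u : Fin b → Bool, C.trueInputs (asg blk z u) (val (asg blk z u)) g = 0 ↔
          ¬ ∃ c ∈ Y.ch (Sum.inr g), Y.F c u = true := by
        intro u
        rw [← hcount, Finset.card_eq_zero, Finset.filter_eq_empty_iff]
        push Not
        rfl
      have hall : ∀ u : Fin b → Bool, C.trueInputs (asg blk z u) (val (asg blk z u)) g =
          (C.vars g).card + (C.args g).card ↔
          ¬ ∃ c ∈ Y.ch (Sum.inr g), Y.F c u = false := by
        intro u
        have h3 : (C.vars g).card + (C.args g).card = (Y.ch (Sum.inr g)).card :=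
          (Finset.card_disjSum _ _).symm
        rw [← hcount, h3, Finset.card_filter_eq_iff]
        push Not
        simp
      have hzero' : C.trueInputs (asg blk z x) (val (asg blk z x)) g = 0 ↔
          C.trueInputs (asg blk z y) (val (asg blk z y)) g = 0 := by
        rw [hzero x, hzero y, h2 true]
      have hall' : C.trueInputs (asg blk z x) (val (asg blk z x)) g =
          (C.vars g).card + (C.args g).card ↔
          C.trueInputs (asg blk z y) (val (asg blk z y)) g =
          (C.vars g).card + (C.args g).card := by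
        rw [hall x, hall y, h2 false]
      have hmaj' : (C.kind g = 4 ∧ (C.vars g).card + (C.args g).card ≤
          2 * C.trueInputs (asg blk z x) (val (asg blk z x)) g) ↔
          (C.kind g = 4 ∧ (C.vars g).card + (C.args g).card ≤
          2 * C.trueInputs (asg blk z y) (val (asg blk z y)) g) := by
        apply and_congr_right
        intro h4
        have h5 : (Y.ch (Sum.inr g)).card < B.card := by
          have h6 : (Y.ch (Sum.inr g)).card = (C.vars g).card + (C.args g).card :=
            Finset.card_disjSum _ _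
          have h7 := C.majority_small g h4
          omega
        have h8 := h2' h5
        rw [hcount x, hcount y] at h8
        rw [h8]
      rw [hcount x, hcount y] at h1
      rw [Bool.eq_iff_iff, hval _ g, hval _ g, hall', h1, Nat.pos_iff_ne_zero,
        Nat.pos_iff_ne_zero, Ne, Ne, hzero', hmaj']
  exact key _ C.out rfl (by rw [gateSupp_out hk hb hsym]; exact Finset.disjoint_empty_left _)

end Pool.Agent.Helper18
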